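import Pool.Agent.Helper24.FF.Stmts

/-! Full list for MP_866009_co, part F: all graphs of the list except the diamond are minimally
non-circle and diamond-free. -/

set_option autoImplicit false

namespace Pool.Agent.Helper24.FF

open Pool.Agent.Helper64.CT Pool.Agent.Helper64.DT Pool.Agent.Helper64.FL
open Pool.Agent.Helper64.HG (Ovl Model Circ IC HellyCircle ChordModel)

theorem fam_okT {DD : List EntD} (h : okT DD = true) : ∀ D ∈ DD, okE D = true := by
  induction DD with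
  | nil => intro D hD; exact absurd hD (List.not_mem_nil)
  | cons E l ih =>
    simp only [okT, Bool.and_eq_true] at h
    intro D hD
    rcases List.mem_cons.1 hD with rfl | hD
    · exact h.1
    · exact ih h.2 D hD

theorem st_FAM (h1 : ST_MRD) (h2 : ST_LDF) (h3 : ST_LSN) (h4 : ST_LCN) (h5 : ST_LSM)
    (h6 : ST_LCM) (h7 : ST_WDF) (h8 : ST_WNC) (h9 : ST_WMN) (h10 : ST_RDF) (h11 : ST_REN)
    (h12 : ST_RON) (h13 : ST_REM) (h14 : ST_ROM) (h15 : ST_TNC) (h16 : ST_TDF)
    (h17 : ST_TMN) : ST_FAM := by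
  intro V _ G DD hok hG
  obtain ⟨_, hCN, _, hM⟩ := h1
  rcases hG with h | h | h | h | h | h | ⟨T, hT, h⟩
  · exact Or.inl h
  · exact Or.inr (hM V G (h7 V G h) (h8 V G h) (h9 V G h))
  · exact Or.inr (hM V G (h2 V G (Or.inl h)) (h3 V G h) (h5 V G h))
  · exact Or.inr (hM V G (h2 V G (Or.inr h)) (h4 V G h) (h6 V G h))
  · refine Or.inr (hM V G (h10 V G (Or.inl h)) ?_ (h13 V G h))
    intro hc
    obtain ⟨m, n, P, hR, he, hm, _⟩ := h
    exact h11 V G Set.univ m n P hR he hm (fun i _ => ⟨Set.mem_univ _, fun x _ => Set.mem_univ _⟩)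
      (hCN V G Set.univ hc)
  · refine Or.inr (hM V G (h10 V G (Or.inr h)) ?_ (h14 V G h))
    intro hc
    obtain ⟨c, m, n, P, hR, ho, h1, h2, _⟩ := h
    refine h12 V G Set.univ m n P c hR ho (fun i _ => ⟨Set.mem_univ _, fun x _ => Set.mem_univ _⟩)
      (Set.mem_univ _) h1 (fun i hi => (h2 (n i)).2 ⟨i, hi, rfl⟩) ?_ (hCN V G Set.univ hc)
    intro i hi x hx hcx
    obtain ⟨j, hj, e⟩ := (h2 x).1 hcx
    exact hR.dis i j hi hj x hx e
  · rw [List.mem_map] at hT
    obtain ⟨D, hD, rfl⟩ := hT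
    have hE := fam_okT hok D hD
    exact Or.inr (hM V G (h16 V G D h hE) (h15 V G D h hE) (h17 V G D h hE))

end Pool.Agent.Helper24.FF
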