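import Pool.Agent.Helper24.FF.Stmts

set_option autoImplicit false

namespace Pool.Agent.Helper24.FF

open Pool.Agent.Helper64.CT Pool.Agent.Helper64.DT Pool.Agent.Helper64.FL
open Pool.Agent.Helper64.HG (Ovl Model Circ IC HellyCircle ChordModel)

theorem ins_gap {p q g e : ℤ} (hp : p % 2 = 0) (hq : q % 2 = 0) (hg : Od g)
    (he : e = 1 ∨ e = -1) : (bt (2 * p) (2 * q) (2 * g + e) ↔ bt p q g) := by
  unfold Od at hg
  unfold bt
  rcases he with rfl | rfl <;> omega

theorem ins_xy {p q s t : ℤ} (hp : p % 2 = 0) (hq : q % 2 = 0) (hs : Od s) (ht : Od t) :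
    (¬ (bt (2 * s) (2 * t) (2 * p) ↔ bt (2 * s) (2 * t) (2 * q))) ↔
      ¬ (bt p q s ↔ bt p q t) := by
  unfold Od at hs ht
  unfold bt
  omega

theorem ins_yx {p q s t : ℤ} :
    (¬ (bt (2 * p) (2 * q) (2 * s) ↔ bt (2 * p) (2 * q) (2 * t))) ↔
      ¬ (bt p q s ↔ bt p q t) := by
  unfold bt
  omega

theorem st_INS : ST_INS := by
  intro V G S a b x s t hM hx hs ht hst hSE
  have e1 : up a x s x = 2 * s := by simp [up]
  have e2 : up b x t x = 2 * t := by simp [up]
  have e3 : ∀ v ∈ S, up a x s v = 2 * a v := by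
    intro v hv
    have h : v ≠ x := fun e => hx (e ▸ hv)
    simp [up, h]
  have e4 : ∀ v ∈ S, up b x t v = 2 * b v := by
    intro v hv
    have h : v ≠ x := fun e => hx (e ▸ hv)
    simp [up, h]
  have hs' := hs
  have ht' := ht
  unfold Od at hs' ht'
  refine ⟨⟨?_, ?_, ?_, ?_, ?_⟩, ?_, ?_⟩
  · intro v hv
    rcases hv with rfl | hv
    · rw [e1]; omega
    · rw [e3 v hv]; omega
  · intro v hv
    rcases hv with rfl | hv
    · rw [e2]; omega
    · rw [e4 v hv]; omega
  · intro v hv
    rcases hv with rfl | hv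
    · rw [e1, e2]; omega
    · rw [e3 v hv, e4 v hv]
      have h := hM.ne v hv
      omega
  · intro u hu v hv huv
    rcases hu with rfl | hu
    · rcases hv with rfl | hv
      · exact absurd rfl huv
      · rw [e1, e2, e3 v hv, e4 v hv]
        have h1 := hM.pa v hv
        have h2 := hM.pb v hv
        omega
    · rcases hv with rfl | hv
      · rw [e1, e2, e3 u hu, e4 u hu]
        have h1 := hM.pa u hu
        have h2 := hM.pb u hu
        omega
      · rw [e3 u hu, e4 u hu, e3 v hv, e4 v hv]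
        have h1 := hM.ds u hu v hv huv
        omega
  · intro u hu v hv huv
    rcases hu with rfl | hu
    · rcases hv with rfl | hv
      · exact absurd rfl huv
      · have hh : _ ↔ G.Adj u v := hSE v hv
        rw [e1, e2, e3 v hv, e4 v hv, ← hh]
        exact (ins_xy (hM.pa v hv) (hM.pb v hv) hs ht).symm
    · rcases hv with rfl | hv
      · have hh : _ ↔ G.Adj v u := hSE u hu
        rw [e1, e2, e3 u hu, e4 u hu, G.adj_comm, ← hh]
        exact ins_yx.symm
      · rw [e3 u hu, e4 u hu, e3 v hv, e4 v hv, hM.ad u hu v hv huv]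
        exact ins_yx.symm
  · intro v hv g e hg he
    rw [e3 v hv, e4 v hv]
    exact ins_gap (hM.pa v hv) (hM.pb v hv) hg he
  · intro g
    rw [e1, e2]

end Pool.Agent.Helper24.FF
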