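import Pool.Agent.Helper24.FF.Stmts
import Pool.Agent.Helper63.FL.IPL

set_option autoImplicit false

namespace Pool.Agent.Helper24.FF

open Pool.Agent.Helper64.CT Pool.Agent.Helper64.DT Pool.Agent.Helper64.FL
open Pool.Agent.Helper64.HG (Ovl Model Circ IC HellyCircle ChordModel)

theorem st_LSN (h1 : ST_LNJ) (h2 : ST_MRD) : ST_LSN := by
  intro V G hG hc
  obtain ⟨h, k, M, a, b, hL, _, hp⟩ := hG
  have hN := h2.2.1 V G ({h, k} ∪ LS M) hc
  refine h1 V G h k M a b hL ?_ ?_ ?_ hN
  · rcases hp with h | h | h <;> omega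
  · intro e
    rcases hp with h | h | h
    · omega
    · omega
    · exact h.2.2
  · rcases hp with h | h | h
    · exact ⟨fun _ => h.2.1, fun _ => h.1⟩
    · constructor
      · intro e; exact absurd e h.1
      · intro e
        exact absurd h.2.1 (Nat.not_even_iff_odd.2 e)
    · constructor
      · intro e; exact absurd e h.1
      · intro e
        rw [h.2.1] at e
        exact absurd e (by decide)

theorem lcn_two {V : Type} (p : V → Bool) (M : List V) (hM : M.Nodup)
    (h : 2 ≤ (M.filter p).length) : ∃ x ∈ M, ∃ y ∈ M, x ≠ y ∧ p x = true ∧ p y = true := by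
  have hn : (M.filter p).Nodup := hM.filter _
  cases hf : M.filter p with
  | nil => rw [hf] at h; simp at h
  | cons x t =>
    cases t with
    | nil => rw [hf] at h; simp at h
    | cons y t =>
      rw [hf] at hn
      have hx : x ∈ M.filter p := by rw [hf]; simp
      have hy : y ∈ M.filter p := by rw [hf]; simp
      rw [List.mem_filter] at hx hy
      refine ⟨x, hx.1, y, hy.1, ?_, hx.2, hy.2⟩
      intro e
      rw [List.nodup_cons] at hn
      exact hn.1 (by rw [e]; simp)

theorem st_LCN (h1 : ST_W1) (h2 : ST_MRD) (h3 : ST_LDF) : ST_LCN := by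
  intro V G hG hc
  have hdf := h3 V G (Or.inr hG)
  obtain ⟨c, h, k, M, a, b, hL, _, hcM, hca, hp⟩ := hG
  have hN := h2.2.1 V G ({h, k} ∪ LS [c] ∪ LS M) hc
  have h2r : 2 ≤ rungs G h k M := by rcases hp with h | h | h <;> omega
  have hch : G.Adj c h := (hca h).2 (Or.inl rfl)
  have hck : G.Adj c k := (hca k).2 (Or.inr rfl)
  refine h1 V G h k [c] M hdf ⟨hL.ne, hL.nadj, by simp, ?_, hL.ip, ?_, ?_, hL.hM, hL.kM, ?_, ?_,
    ?_, ?_, ?_, ?_⟩ hN
  · simp [IPt]
  · intro e
    rw [List.mem_singleton] at e
    exact hch.ne e.symm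
  · intro e
    rw [List.mem_singleton] at e
    exact hck.ne e.symm
  · intro x hx
    rw [List.mem_singleton] at hx
    rw [hx]
    simp [hch.symm]
  · intro x hx
    rw [List.mem_singleton] at hx
    rw [hx]
    simp [hck.symm]
  · intro x hx y hy
    rw [List.mem_singleton] at hx
    rw [hx]
    refine ⟨fun e => hcM (e ▸ hy), fun e => ?_⟩
    rcases (hca y).1 e with e | e
    · exact hL.hM (e ▸ hy)
    · exact hL.kM (e ▸ hy)
  · intro x hx
    have := hL.fst x hx
    unfold Pool.Agent.Helper64.FL.Pure
    cases a <;> simp_all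
  · intro x hx
    have := hL.lst x hx
    unfold Pool.Agent.Helper64.FL.Pure
    cases b <;> simp_all
  · have hnd : M.Nodup := (Pool.Agent.Helper64.FL.st_IPL V G).2.2.1 M hL.ip
    obtain ⟨x, hx, y, hy, hxy, px, py⟩ := lcn_two _ M hnd h2r
    simp only [decide_eq_true_eq] at px py
    exact ⟨x, hx, y, hy, hxy, px.1, px.2, py.1, py.2⟩

theorem st_REM (h1 : ST_RBR) : ST_REM := by
  intro V G hG z
  obtain ⟨m, n, P, hR, _, _, hcov⟩ := hG
  have h := h1 V G m n P z ∅ hR (by simp) (by simp) (hcov z)
  have e : {x | x ≠ z ∧ (x ∈ (∅ : Set V) ∨ (∃ i, i < m ∧ x = n i) ∨ ∃ i, i < m ∧ x ∈ P i)} =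
      {v | v ≠ z} := by
    ext x
    simp only [Set.mem_setOf_eq]
    exact ⟨fun h => h.1, fun h => ⟨h, Or.inr (hcov x)⟩⟩
  rw [e] at h
  exact h

theorem st_RLK (h1 : ST_R1) : ST_RLK := by
  intro V G S Q z v w s N
  induction N generalizing S v with
  | nil =>
    intro hR _ _ _ hw
    simp only [List.getLast?_singleton, Option.some.injEq] at hw
    have e : S ∪ LS ([] : List V) = S := by
      ext x
      simp [LS]
    rw [e, ← hw]
    exact hR
  | cons x N ih =>
    intro hR hI hS ha hw
    have hv : v ∈ S := hR.2.2.1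
    have hxS : x ∉ S := hS x (by simp)
    have hadj : ∀ y ∈ S, (G.Adj x y ↔ y = v) := by
      intro y hy
      constructor
      · intro h
        by_contra hne
        exact ha x (by simp) y hy hne h
      · intro e
        rw [e]
        exact (hI.2.1 x (by simp)).symm
    have hR' := h1 V G S Q z v x s hR hxS hadj
    have hI' : IPt G (x :: N) := hI.2.2.2
    rw [List.getLast?_cons_cons] at hw
    have h := ih (insert x S) x hR' hI' ?_ ?_ hw
    · have e : insert x S ∪ LS N = S ∪ LS (x :: N) := by
        ext y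
        simp only [LS, Set.mem_union, Set.mem_insert_iff, Set.mem_setOf_eq, List.mem_cons]
        tauto
      rw [e] at h
      exact h
    · intro y hy hyS
      rcases hyS with rfl | hyS
      · exact hI'.1 y hy rfl
      · exact hS y (by simp [hy]) hyS
    · intro y hy u hu hux
      rcases hu with hu | hu
      · exact absurd hu hux
      · by_cases e : u = v
        · rw [e]
          intro h'
          exact hI.2.2.1 y (by simpa using hy) h'.symm
        · exact ha y (by simp [hy]) u hu e

end Pool.Agent.Helper24.FF
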