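import Pool.Agent.Helper24.FF.Stmts
import Pool.Agent.Helper63.FL.IPL

set_option autoImplicit false

namespace Pool.Agent.Helper24.FF

open Pool.Agent.Helper64.CT Pool.Agent.Helper64.DT Pool.Agent.Helper64.FL
open Pool.Agent.Helper64.HG (Ovl Model Circ IC HellyCircle ChordModel)

theorem st_LSY : ST_LSY := by
  intro V G h k M a b hL
  refine ⟨⟨hL.ip, hL.two, hL.ne.symm, fun e => hL.nadj e.symm, hL.kM, hL.hM, ?_, ?_, ?_, ?_⟩,
    ⟨((Pool.Agent.Helper64.FL.st_IPL V G).1 M hL.ip), ?_, hL.ne, hL.nadj, ?_, ?_, ?_, ?_, ?_, ?_⟩,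
    ?_, ?_⟩
  · intro x hx
    have := hL.fst x hx
    cases a <;> simp_all
  · intro x hx
    have := hL.lst x hx
    cases b <;> simp_all
  · intro x hx h1 h2
    exact (hL.mid x hx h1 h2).symm
  · intro x hx y hy hxy h1
    exact hL.ind x hx y hy hxy ⟨h1.2.1, h1.1, h1.2.2.2, h1.2.2.1⟩
  · rw [List.length_reverse]; exact hL.two
  · rw [List.mem_reverse]; exact hL.hM
  · rw [List.mem_reverse]; exact hL.kM
  · intro x hx
    rw [List.head?_reverse] at hx
    exact hL.lst x hx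
  · intro x hx
    rw [List.getLast?_reverse] at hx
    exact hL.fst x hx
  · intro x hx h1 h2
    rw [List.head?_reverse] at h1
    rw [List.getLast?_reverse] at h2
    rw [List.mem_reverse] at hx
    exact hL.mid x hx h2 h1
  · intro x hx y hy
    rw [List.mem_reverse] at hx hy
    exact hL.ind x hx y hy
  · rintro ⟨x, hx, y, hy, z, hz, h1, h2, h3, h4, h5, h6⟩
    exact ⟨x, hx, y, hy, z, hz, h1, h3, h2, h5, h4, h6⟩
  · rintro ⟨x, hx, y, hy, z, hz, h1⟩
    exact ⟨x, List.mem_reverse.2 hx, y, List.mem_reverse.2 hy, z, List.mem_reverse.2 hz, h1⟩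

end Pool.Agent.Helper24.FF
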