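import Pool.Agent.Helper24.FF.Stmts

set_option autoImplicit false

namespace Pool.Agent.Helper24.FF

open Pool.Agent.Helper64.CT Pool.Agent.Helper64.DT Pool.Agent.Helper64.FL
open Pool.Agent.Helper64.HG (Ovl Model Circ IC HellyCircle ChordModel)

theorem st_MIR : ST_MIR := by
  intro V G S a b hM
  refine ⟨⟨?_, ?_, ?_, ?_, ?_⟩, ?_⟩
  · intro v hv
    have h := hM.pa v hv
    omega
  · intro v hv
    have h := hM.pb v hv
    omega
  · intro v hv
    have h := hM.ne v hv
    omega
  · intro u hu v hv huv
    have h := hM.ds u hu v hv huv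
    omega
  · intro u hu v hv huv
    rw [hM.ad u hu v hv huv]
    unfold bt
    omega
  · intro v g
    unfold bt
    omega

theorem st_R0 : ST_R0 := by
  intro V G z
  refine ⟨fun x hx => hx, rfl, rfl, fun _ => 0, fun _ => 2, -1, 1, 5, 3, ⟨?_, ?_, ?_, ?_, ?_⟩, ?_,
    ?_, ?_, ?_, ?_, ?_, ?_, ?_, ?_⟩
  · intro v _; rfl
  · intro v _; rfl
  · intro v _; decide
  · intro u hu v hv huv
    rw [Set.mem_singleton_iff] at hu hv
    exact absurd (hu.trans hv.symm) huv
  · intro u hu v hv huv
    rw [Set.mem_singleton_iff] at hu hv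
    exact absurd (hu.trans hv.symm) huv
  · rfl
  · rfl
  · rfl
  · rfl
  · decide
  · intro y hy
    rw [Set.mem_singleton_iff] at hy
    simp only [hy, bt]
    norm_num
  · intro y hy
    rw [Set.mem_singleton_iff] at hy
    simp only [hy, bt, Set.mem_singleton_iff]
    norm_num
  · intro _
    refine ⟨by norm_num, by norm_num, ?_⟩
    intro y hy
    rw [Set.mem_singleton_iff] at hy
    simp only [hy, bt]
    norm_num
  · intro h
    exact absurd h (by decide)

end Pool.Agent.Helper24.FF
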