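import Pool.Agent.Helper24.FF.Stmts

set_option autoImplicit false

namespace Pool.Agent.Helper24.FF

open Pool.Agent.Helper64.CT Pool.Agent.Helper64.DT Pool.Agent.Helper64.FL
open Pool.Agent.Helper64.HG (Ovl Model Circ IC HellyCircle ChordModel)

theorem r1_SE {V : Type} {S : Set V} {a b a' b' : V → ℤ} {x : V} {s t : ℤ} {P : V → Prop}
    (hg : ∀ v ∈ S, ∀ g e : ℤ, Od g → (e = 1 ∨ e = -1) →
      (bt (a' v) (b' v) (2 * g + e) ↔ bt (a v) (b v) g))
    (hgx : ∀ g : ℤ, (bt (a' x) (b' x) g ↔ bt (2 * s) (2 * t) g)) {g g' e e' : ℤ}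
    (og : Od g) (og' : Od g') (he : e = 1 ∨ e = -1) (he' : e' = 1 ∨ e' = -1)
    (h : SE S a b g g' P)
    (h' : (¬ (bt (2 * s) (2 * t) (2 * g + e) ↔ bt (2 * s) (2 * t) (2 * g' + e'))) ↔ P x) :
    SE (insert x S) a' b' (2 * g + e) (2 * g' + e') P := by
  intro y hy
  rcases hy with rfl | hy
  · rw [hgx, hgx]
    exact h'
  · rw [hg y hy g e og he, hg y hy g' e' og' he']
    exact h y hy

theorem r1_same {V : Type} {S : Set V} (a b : V → ℤ) {x : V} (hx : x ∉ S) (g : ℤ) :
    SE S a b g g (fun y => y = x) := by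
  intro y hy
  constructor
  · intro h; exact absurd Iff.rfl h
  · intro h; exact absurd (h ▸ hy) hx

theorem r1_od (g e : ℤ) (he : e = 1 ∨ e = -1) : Od (2 * g + e) := by
  unfold Od
  omega

theorem st_R1 (h1 : ST_INS) : ST_R1 := by
  intro V G S Q z v x s hR hx hadj
  obtain ⟨hQ, hz, hv, a, b, g0, g1, g2, z', hM, o0, o1, o2, oz, h01, s01, s12, ht, hf⟩ := hR
  have hSE : SE S a b g0 g1 (fun y => G.Adj x y) := by
    intro y hy
    change _ ↔ G.Adj x y
    rw [hadj y hy]
    exact s01 y hy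
  obtain ⟨hM', hg, hgx⟩ := h1 V G S a b x g0 g1 hM hx o0 o1 (ne_of_lt h01) hSE
  have p1 : (1 : ℤ) = 1 ∨ (1 : ℤ) = -1 := Or.inl rfl
  have p2 : (-1 : ℤ) = 1 ∨ (-1 : ℤ) = -1 := Or.inr rfl
  have hxQ : x ∉ Q := fun h => hx (hQ h)
  have hxz : ¬ x = z := fun h => hxQ (h ▸ hz)
  have q0 := o0
  have q1 := o1
  have q2 := o2
  have q3 := oz
  unfold Od at q0 q1 q2 q3
  refine ⟨fun y hy => Or.inr (hQ hy), hz, Or.inl rfl, _, _, 2 * g1 + -1, 2 * g1 + 1, 2 * g2 + 1,
    2 * z' + 1, hM', r1_od _ _ p2, r1_od _ _ p1, r1_od _ _ p1, r1_od _ _ p1, by omega, ?_, ?_,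
    ?_, ?_⟩
  · refine r1_SE hg hgx o1 o1 p2 p1 (r1_same a b hx g1) ?_
    simp only [iff_true]
    unfold bt
    omega
  · refine r1_SE hg hgx o1 o2 p1 p1 s12 ?_
    simp only [hxQ, iff_false]
    unfold bt
    cases s with
    | true =>
      obtain ⟨t1, t2, _⟩ := ht rfl
      omega
    | false =>
      obtain ⟨t1, t2, _⟩ := hf rfl
      omega
  · intro hs
    obtain ⟨t1, t2, t3⟩ := ht hs
    refine ⟨by omega, by omega, ?_⟩
    refine r1_SE hg hgx o1 oz p1 p1 t3 ?_
    simp only [hxz, iff_false]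
    unfold bt
    omega
  · intro hs
    obtain ⟨t1, t2, t3⟩ := hf hs
    refine ⟨by omega, by omega, ?_⟩
    refine r1_SE hg hgx o2 oz p1 p1 t3 ?_
    simp only [hxz, iff_false]
    unfold bt
    omega

theorem st_R2 (h1 : ST_INS) : ST_R2 := by
  intro V G S Q z v x s hR hvQ hx hadj
  obtain ⟨hQ, hz, hv, a, b, g0, g1, g2, z', hM, o0, o1, o2, oz, h01, s01, s12, ht, hf⟩ := hR
  have hSE : SE S a b g0 g2 (fun y => G.Adj x y) := by
    intro y hy
    change _ ↔ G.Adj x y
    rw [hadj y hy]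
    have e1 := s01 y hy
    have e2 := s12 y hy
    dsimp only at e1 e2
    by_cases hyv : y = v
    · have hyQ : y ∉ Q := fun h => hvQ (hyv ▸ h)
      have e1' := e1.2 hyv
      have e2' := fun h => hyQ (e2.1 h)
      constructor
      · intro _; exact Or.inl hyv
      · intro _ h
        apply e2'
        intro h'
        exact e1' (h.trans h'.symm)
    · have e1' : bt (a y) (b y) g0 ↔ bt (a y) (b y) g1 := by
        by_contra h
        exact hyv (e1.1 h)
      rw [e1', e2]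
      simp [hyv]
  have hne : g0 ≠ g2 := by
    intro e
    have e1 := hSE v hv
    rw [e] at e1
    exact e1.2 ((hadj v hv).2 (Or.inl rfl)) Iff.rfl
  obtain ⟨hM', hg, hgx⟩ := h1 V G S a b x g0 g2 hM hx o0 o2 hne hSE
  have p1 : (1 : ℤ) = 1 ∨ (1 : ℤ) = -1 := Or.inl rfl
  have p2 : (-1 : ℤ) = 1 ∨ (-1 : ℤ) = -1 := Or.inr rfl
  have hxQ : x ∉ Q := fun h => hx (hQ h)
  have hxz : ¬ x = z := fun h => hxQ (h ▸ hz)
  have q0 := o0
  have q1 := o1
  have q2 := o2
  have q3 := oz
  unfold Od at q0 q1 q2 q3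
  have hsub : insert x Q ⊆ insert x S := Set.insert_subset_insert hQ
  have s21 : SE S a b g2 g1 (fun y => y ∈ insert x Q) := by
    intro y hy
    have e2 := s12 y hy
    dsimp only at e2
    have hyx : y ≠ x := fun e => hx (e ▸ hy)
    simp only [Set.mem_insert_iff, hyx, false_or]
    rw [← e2]
    constructor
    · intro h h'; exact h h'.symm
    · intro h h'; exact h h'.symm
  cases s with
  | true =>
    obtain ⟨t1, t2, t3⟩ := ht rfl
    refine ⟨hsub, Or.inr hz, Or.inl rfl, _, _, 2 * g2 + -1, 2 * g2 + 1, 2 * g1 + 1, 2 * z' + -1,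
      hM', r1_od _ _ p2, r1_od _ _ p1, r1_od _ _ p1, r1_od _ _ p2, by omega, ?_, ?_, ?_, ?_⟩
    · refine r1_SE hg hgx o2 o2 p2 p1 (r1_same a b hx g2) ?_
      simp only [iff_true]
      unfold bt
      omega
    · refine r1_SE hg hgx o2 o1 p1 p1 s21 ?_
      simp only [Set.mem_insert_iff, true_or, iff_true]
      unfold bt
      omega
    · intro h; exact absurd h (by decide)
    · intro _
      refine ⟨by omega, by omega, ?_⟩
      refine r1_SE hg hgx o1 oz p1 p2 t3 ?_
      simp only [hxz, iff_false]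
      unfold bt
      omega
  | false =>
    obtain ⟨t1, t2, t3⟩ := hf rfl
    refine ⟨hsub, Or.inr hz, Or.inl rfl, _, _, 2 * g2 + -1, 2 * g2 + 1, 2 * g1 + -1, 2 * z' + 1,
      hM', r1_od _ _ p2, r1_od _ _ p1, r1_od _ _ p2, r1_od _ _ p1, by omega, ?_, ?_, ?_, ?_⟩
    · refine r1_SE hg hgx o2 o2 p2 p1 (r1_same a b hx g2) ?_
      simp only [iff_true]
      unfold bt
      omega
    · refine r1_SE hg hgx o2 o1 p1 p2 s21 ?_
      simp only [Set.mem_insert_iff, true_or, iff_true]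
      unfold bt
      omega
    · intro _
      refine ⟨by omega, by omega, ?_⟩
      refine r1_SE hg hgx o2 oz p1 p1 t3 ?_
      simp only [hxz, iff_false]
      unfold bt
      omega
    · intro h; exact absurd h (by decide)

theorem st_R3 (h1 : ST_INS) : ST_R3 := by
  constructor
  · intro V G S Q z v x s hR hx hadj
    obtain ⟨hQ, hz, hv, a, b, g0, g1, g2, z', hM, o0, o1, o2, oz, h01, s01, s12, ht, hf⟩ := hR
    have hSE : SE S a b g1 g2 (fun y => G.Adj x y) := by
      intro y hy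
      change _ ↔ G.Adj x y
      rw [hadj y hy]
      exact s12 y hy
    have hne : g1 ≠ g2 := by
      intro e
      have e1 := s12 z (hQ hz)
      rw [e] at e1
      exact e1.2 hz Iff.rfl
    obtain ⟨hM', _, _⟩ := h1 V G S a b x g1 g2 hM hx o1 o2 hne hSE
    exact ⟨_, _, hM'⟩
  · intro V G S Q z v x hR hvz hx hadj
    obtain ⟨hQ, hz, hv, a, b, g0, g1, g2, z', hM, o0, o1, o2, oz, h01, s01, s12, ht, hf⟩ := hR
    obtain ⟨t1, t2, t3⟩ := ht rfl
    have hSE : SE S a b g0 z' (fun y => G.Adj x y) := by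
      intro y hy
      change _ ↔ G.Adj x y
      rw [hadj y hy]
      have e1 := s01 y hy
      have e2 := t3 y hy
      dsimp only at e1 e2
      by_cases hyv : y = v
      · have hyz : ¬ y = z := fun h => hvz (hyv ▸ h)
        have e1' := e1.2 hyv
        have e2' := fun h => hyz (e2.1 h)
        constructor
        · intro _; exact Or.inl hyv
        · intro _ h
          apply e2'
          intro h'
          exact e1' (h.trans h'.symm)
      · have e1' : bt (a y) (b y) g0 ↔ bt (a y) (b y) g1 := by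
          by_contra h
          exact hyv (e1.1 h)
        rw [e1', e2]
        simp [hyv]
    obtain ⟨hM', _, _⟩ := h1 V G S a b x g0 z' hM hx o0 oz (by omega) hSE
    exact ⟨_, _, hM'⟩

end Pool.Agent.Helper24.FF
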