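import Pool.Agent.Helper24.FF.Stmts

set_option autoImplicit false

namespace Pool.Agent.Helper24.FF

open Pool.Agent.Helper64.CT Pool.Agent.Helper64.DT Pool.Agent.Helper64.FL
open Pool.Agent.Helper64.HG (Ovl Model Circ IC HellyCircle ChordModel)

theorem ral_two {V : Type} {G : SimpleGraph V} {L : List V} {g : V} (hI : IPt G L)
    (h2 : 2 ≤ L.length) (hh : L.head? = some g) (hl : L.getLast? = some g) : False := by
  cases L with
  | nil => simp at h2
  | cons a t =>
    simp only [List.head?_cons, Option.some.injEq] at hh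
    cases t with
    | nil => simp at h2
    | cons c t =>
      have h3 : g ∈ c :: t := by
        rw [List.getLast?_cons_cons] at hl
        exact List.mem_of_getLast? hl
      exact hI.1 g h3 hh

theorem st_RAL (h1 : ST_RK) (h2 : ST_NCH) (h3 : ST_IPX) : ST_RAL := by
  intro V G S b m n P y f g j hR hN hj hy hS hadj hP hyj hyJ hcl hg hf
  have hm : 0 < m := by omega
  have hJ : (j + 1) % m < m := Nat.mod_lt _ hm
  have hne : P j ≠ [] := by
    intro e
    rw [e] at hf
    simp at hf
  obtain ⟨l, hl⟩ : ∃ l, (P j).getLast? = some l := ⟨_, List.getLast?_eq_getLast_of_ne_nil hne⟩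
  have hfm : f ∈ P j := List.mem_of_head? hf
  have hlm : l ∈ P j := List.mem_of_getLast? hl
  have hgm : g ∈ P ((j + 1) % m) := List.mem_of_head? hg
  have hfar : ∀ x ∈ P j, x ∈ S ∧ x ∈ Far G y := by
    intro x hx
    refine ⟨(hS j hj).2 x hx, fun e => hP j hj x hx e.symm, fun ha => ?_⟩
    exact hyJ (hcl j hj hyj x hx ha)
  have hW : Wk G (P j) := (h3 V G).2.2.1 _ (hR.pth j hj)
  have e1 : b y f = b y l := h2 V G S b y (P j) hN hy hW hfar f hfm l hlm
  have hyg : ¬ G.Adj y g := by
    intro ha
    have e := hcl _ hJ hyJ g hgm ha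
    rw [e] at ha
    exact ral_two (hR.pth _ hJ) (hR.len _ hJ) hg ((hR.lst _ hJ g hgm).1 ha)
  have e2 := h1 V G S b m n P y g l j hR hN hj hy hS hadj hP hyJ hg hl hyg (hfar l hlm).2.2
  rw [e1]
  exact e2.symm

theorem st_RON (h1 : ST_RAL) (h2 : ST_NNS) : ST_RON := by
  intro V G S m n P c hR ho hS hc hcP hcn hcx hN
  obtain ⟨b, hb⟩ := (h2 V G S).1.1 hN
  have hm := hR.m3
  have hF : ∀ j, ∃ f, j < m → (P j).head? = some f := by
    intro j
    by_cases hj : j < m
    · have h := hR.len j hj
      cases hP : P j with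
      | nil => rw [hP] at h; simp at h
      | cons a t => exact ⟨a, fun _ => rfl⟩
    · exact ⟨c, fun h => absurd h hj⟩
  choose F hF using hF
  have step : ∀ j, j < m → b c (F j) ≠ b c (F ((j + 1) % m)) := by
    intro j hj
    have hJ : (j + 1) % m < m := Nat.mod_lt _ (by omega)
    refine h1 V G S b m n P c (F j) (F ((j + 1) % m)) j hR hb hj hc hS
      (fun i hi => Or.inr (hcn i hi)) ?_ (hcP j hj).2 (hcP _ hJ).2 ?_ (hF _ hJ) (hF j hj)
    · intro i hi x hx e
      exact (hcP i hi).1 (e ▸ hx)
    · intro i hi _ x hx ha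
      exact absurd ha (hcx i hi x hx)
  have key : ∀ k, k < m → (b c (F k) = b c (F 0) ↔ Even k) := by
    intro k
    induction k with
    | zero => intro _; simp
    | succ k ih =>
      intro hk
      have h3 := ih (by omega)
      have h4 := step k (by omega)
      rw [Nat.mod_eq_of_lt hk] at h4
      rw [Nat.even_add_one, ← h3]
      revert h4
      cases b c (F k) <;> cases b c (F (k + 1)) <;> cases b c (F 0) <;> simp
  have h5 := step (m - 1) (by omega)
  have e : (m - 1 + 1) % m = 0 := by
    rw [Nat.sub_add_cancel (by omega), Nat.mod_self]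
  rw [e] at h5
  apply h5
  rw [key (m - 1) (by omega)]
  exact Nat.Odd.sub_odd ho odd_one

end Pool.Agent.Helper24.FF
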