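import Pool.Agent.Helper24.FF.Defs
import Pool.Agent.Helper64.FL.StE

/-! Full list for MP_866009_co, part F (families and minimality): statements. -/

set_option autoImplicit false

namespace Pool.Agent.Helper24.FF

open Pool.Agent.Helper64.CT Pool.Agent.Helper64.DT Pool.Agent.Helper64.FL
open Pool.Agent.Helper64.HG (Ovl Model Circ IC HellyCircle ChordModel)

/-! ### A. Basic calculus of chord models -/

/-- chord models with integer positions give circle graphs -/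
def ST_CMC : Prop := ∀ (V : Type) [Finite V] (G : SimpleGraph V) (S : Set V), CE G S → CS G S

/-- only the adjacency on `S` matters; subsets -/
def ST_CEC : Prop := ∀ (V : Type) (G H : SimpleGraph V) (S T : Set V), CE G S → T ⊆ S →
  (∀ x ∈ T, ∀ y ∈ T, x ≠ y → (H.Adj x y ↔ G.Adj x y)) → CE H T

/-- doubling the positions -/
def ST_SCL : Prop := ∀ (V : Type) (G : SimpleGraph V) (S : Set V) (a b : V → ℤ), CM G S a b →
  CM G S (fun v => 2 * a v) (fun v => 2 * b v) ∧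
  ∀ v ∈ S, ∀ g e : ℤ, Od g → (e = 1 ∨ e = -1) →
    (bt (2 * a v) (2 * b v) (2 * g + e) ↔ bt (a v) (b v) g)

/-- reflection -/
def ST_MIR : Prop := ∀ (V : Type) (G : SimpleGraph V) (S : Set V) (a b : V → ℤ), CM G S a b →
  CM G S (fun v => - a v) (fun v => - b v) ∧
  ∀ v : V, ∀ g : ℤ, (bt (- a v) (- b v) (- g) ↔ bt (a v) (b v) g)

/-- insertion of a chord -/
def ST_INS : Prop := ∀ (V : Type) (G : SimpleGraph V) (S : Set V) (a b : V → ℤ) (x : V) (s t : ℤ),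
  CM G S a b → x ∉ S → Od s → Od t → s ≠ t → SE S a b s t (fun y => G.Adj x y) →
  CM G (insert x S) (up a x s) (up b x t) ∧
  (∀ v ∈ S, ∀ g e : ℤ, Od g → (e = 1 ∨ e = -1) →
    (bt (up a x s v) (up b x t v) (2 * g + e) ↔ bt (a v) (b v) g)) ∧
  ∀ g : ℤ, (bt (up a x s x) (up b x t x) g ↔ bt (2 * s) (2 * t) g)

/-- a vertex with at most one neighbour -/
def ST_PE1 : Prop := ∀ (V : Type) (G : SimpleGraph V) (S : Set V) (x : V), CE G S →
  x ∉ S → (∀ y ∈ S, ∀ z ∈ S, G.Adj x y → G.Adj x z → y = z) → CE G (insert x S)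

/-- a pendant path -/
def ST_PEL : Prop := ∀ (V : Type) (G : SimpleGraph V) (S : Set V) (A : List V),
  CE G S → IPt G A → (∀ x ∈ A, x ∉ S) →
  (∀ x ∈ A, ∀ y ∈ S, G.Adj x y → A.head? = some x) →
  (∀ x ∈ A, ∀ y ∈ S, ∀ z ∈ S, G.Adj x y → G.Adj x z → y = z) → CE G (S ∪ LS A)

/-- induced paths: parts, neighbours, walks -/
def ST_IPX : Prop := ∀ (V : Type) (G : SimpleGraph V),
  (∀ A B : List V, IPt G (A ++ B) → IPt G A ∧ IPt G B ∧ ∀ x ∈ A, ∀ y ∈ B, x ≠ y) ∧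
  (∀ (A B : List V) (x z : V), IPt G (A ++ x :: B) → z ∈ A ++ x :: B →
    (G.Adj x z ↔ (A.getLast? = some z ∨ B.head? = some z))) ∧
  (∀ A : List V, IPt G A → Wk G A) ∧
  (∀ A B : List V, Wk G (A ++ B) ↔ (Wk G A ∧ Wk G B ∧ ∀ x ∈ A.getLast?, ∀ y ∈ B.head?,
    G.Adj x y)) ∧
  (∀ A : List V, Wk G A → Wk G A.reverse)

/-- counting rungs -/
def ST_RUB : Prop := ∀ (V : Type) (G : SimpleGraph V) (h k : V),
  rungs G h k [] = 0 ∧
  (∀ (x : V) (A : List V), (G.Adj h x ∧ G.Adj k x) → rungs G h k (x :: A) = rungs G h k A + 1) ∧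
  (∀ (x : V) (A : List V), ¬ (G.Adj h x ∧ G.Adj k x) → rungs G h k (x :: A) = rungs G h k A) ∧
  (∀ A B : List V, rungs G h k (A ++ B) = rungs G h k A + rungs G h k B) ∧
  (∀ A : List V, rungs G h k A.reverse = rungs G h k A) ∧
  (∀ A : List V, rungs G k h A = rungs G h k A) ∧
  (∀ A : List V, rungs G h k A = 0 ↔ ∀ x ∈ A, ¬ (G.Adj h x ∧ G.Adj k x))

/-! ### B. One hub: a path and a further vertex -/

/-- start and next vertex -/
def ST_H1 : Prop := (∀ (V : Type) (G : SimpleGraph V) (h v : V), v ≠ h → F1 G {v, h} h v) ∧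
  ∀ (V : Type) (G : SimpleGraph V) (S : Set V) (h v x : V), F1 G S h v →
  x ∉ S → G.Adj x v → (∀ y ∈ S, y ≠ h → y ≠ v → ¬ G.Adj x y) → F1 G (insert x S) h x

/-- a path and a further vertex form a circle graph -/
def ST_PH : Prop := ∀ (V : Type) (G : SimpleGraph V) (h : V) (M : List V), IPt G M → h ∉ M →
  CE G (insert h (LS M))

/-! ### C. Two hubs -/

def ST_M0 : Prop := ∀ (V : Type) (G : SimpleGraph V) (h k : V), h ≠ k → ¬ G.Adj h k →
  E2 G {h, k} h k ∧ ∀ p, p ≠ h → p ≠ k → G.Adj h p → ¬ G.Adj k p → F2 G {p, h, k} h k p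

def ST_M1 : Prop := ∀ (V : Type) (G : SimpleGraph V) (S : Set V) (h k v x : V), F2 G S h k v →
  x ∉ S → (∀ y ∈ S, (G.Adj x y ↔ y = v)) → F2 G (insert x S) h k x

def ST_M2 : Prop := ∀ (V : Type) (G : SimpleGraph V) (S : Set V) (h k v x : V), F2 G S h k v →
  x ∉ S → (∀ y ∈ S, (G.Adj x y ↔ (y = v ∨ y = h ∨ y = k))) → F2 G (insert x S) k h x

def ST_M3 : Prop := ∀ (V : Type) (G : SimpleGraph V) (S : Set V) (h k v x : V), F2 G S h k v →
  x ∉ S → (∀ y ∈ S, (G.Adj x y ↔ (y = v ∨ y = h))) → CE G (insert x S)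

def ST_M4 : Prop := ∀ (V : Type) (G : SimpleGraph V) (S : Set V) (h k x : V), E2 G S h k →
  x ∉ S → (∀ y ∈ S, ¬ G.Adj x y) → F2 G (insert x S) h k x

def ST_M5 : Prop := ∀ (V : Type) (G : SimpleGraph V) (S : Set V) (h k x : V), E2 G S h k →
  x ∉ S → (∀ y ∈ S, (G.Adj x y ↔ (y = h ∨ y = k))) →
  F2 G (insert x S) h k x ∧ E2 G (insert x S) h k

def ST_M6 : Prop := ∀ (V : Type) (G : SimpleGraph V) (S : Set V) (h k x : V), E2 G S h k →
  x ∉ S → (∀ y ∈ S, (G.Adj x y ↔ y = h)) → CE G (insert x S)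

def ST_M7 : Prop := ∀ (V : Type) (G : SimpleGraph V) (S : Set V) (h k : V),
  (∀ v, F2 G S h k v → E2 G S h k) ∧ (E2 G S h k → E2 G S k h) ∧ (E2 G S h k → CE G S)

open Classical in
/-- a run of vertices that are adjacent to both or to none of the hubs -/
def ST_RUN : Prop := ∀ (V : Type) (G : SimpleGraph V) (S : Set V) (h k v w : V) (N : List V),
  F2 G S h k v → IPt G (v :: N) → (∀ x ∈ N, x ∉ S) → (∀ x ∈ N, (G.Adj h x ↔ G.Adj k x)) →
  (∀ x ∈ N, ∀ y ∈ S, y ≠ h → y ≠ k → y ≠ v → ¬ G.Adj x y) → (v :: N).getLast? = some w →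
  F2 G (S ∪ LS N) (if Even (rungs G h k N) then h else k) (if Even (rungs G h k N) then k else h) w

/-- a path that ends with a vertex adjacent to exactly one hub, the rest being adjacent to both or
to none -/
def ST_RP : Prop := ∀ (V : Type) (G : SimpleGraph V) (S : Set V) (h k : V) (N : List V),
  E2 G S h k → IPt G N → N ≠ [] → (∀ x ∈ N, x ∉ S) →
  (∀ x ∈ N, ∀ y ∈ S, y ≠ h → y ≠ k → ¬ G.Adj x y) →
  (∀ x ∈ N, N.getLast? ≠ some x → (G.Adj h x ↔ G.Adj k x)) →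
  (∀ x ∈ N.getLast?, (G.Adj h x ↔ ¬ G.Adj k x)) → CE G (S ∪ LS N)

/-- symmetries of ladders -/
def ST_LSY : Prop := ∀ (V : Type) (G : SimpleGraph V) (h k : V) (M : List V) (a b : Bool),
  LadM G h k M a b → LadM G k h M (!a) (!b) ∧ LadM G h k M.reverse b a ∧
  (Gap1 G h k M → Gap1 G k h M) ∧ (Gap1 G h k M → Gap1 G h k M.reverse)

/-- ladders with the good parity -/
def ST_LG : Prop := ∀ (V : Type) (G : SimpleGraph V) (h k : V) (M : List V) (a b : Bool),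
  LadM G h k M a b → (a = b ↔ Even (rungs G h k M)) → CE G ({h, k} ∪ LS M)

/-- broken ladders -/
def ST_LB : Prop := ∀ (V : Type) (G : SimpleGraph V) (h k z : V) (M M1 M2 : List V) (a b : Bool),
  LadM G h k M a b → M = M1 ++ z :: M2 → CE G ({h, k} ∪ LS M1 ∪ LS M2)

/-- broken ladders with a connector -/
def ST_LBC : Prop := ∀ (V : Type) (G : SimpleGraph V) (h k z c : V) (M M1 M2 : List V)
  (a b : Bool), LadM G h k M a b → M = M1 ++ z :: M2 → c ∉ M →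
  (∀ x, (G.Adj c x ↔ (x = h ∨ x = k))) → CE G (insert c ({h, k} ∪ LS M1 ∪ LS M2))

/-- two rungs with a common neighbour -/
def ST_LG1 : Prop := ∀ (V : Type) (G : SimpleGraph V) (h k : V) (M : List V) (a b : Bool),
  LadM G h k M a b → a ≠ b → rungs G h k M = 2 → Gap1 G h k M → CE G ({h, k} ∪ LS M)

/-! ### D. Rings -/

def ST_R0 : Prop := ∀ (V : Type) (G : SimpleGraph V) (z : V), RG G {z} {z} z z true

/-- the next vertex of a link -/
def ST_R1 : Prop := ∀ (V : Type) (G : SimpleGraph V) (S Q : Set V) (z v x : V) (s : Bool),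
  RG G S Q z v s → x ∉ S → (∀ y ∈ S, (G.Adj x y ↔ y = v)) → RG G (insert x S) Q z x s

/-- the next vertex of the clique -/
def ST_R2 : Prop := ∀ (V : Type) (G : SimpleGraph V) (S Q : Set V) (z v x : V) (s : Bool),
  RG G S Q z v s → v ∉ Q → x ∉ S → (∀ y ∈ S, (G.Adj x y ↔ (y = v ∨ y ∈ Q))) →
  RG G (insert x S) (insert x Q) z x (!s)

/-- a vertex adjacent to the clique; closing -/
def ST_R3 : Prop := (∀ (V : Type) (G : SimpleGraph V) (S Q : Set V) (z v x : V) (s : Bool),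
  RG G S Q z v s → x ∉ S → (∀ y ∈ S, (G.Adj x y ↔ y ∈ Q)) → CE G (insert x S)) ∧
  ∀ (V : Type) (G : SimpleGraph V) (S Q : Set V) (z v x : V),
  RG G S Q z v true → v ≠ z → x ∉ S → (∀ y ∈ S, (G.Adj x y ↔ (y = v ∨ y = z))) →
  CE G (insert x S)

/-- a run along a link -/
def ST_RLK : Prop := ∀ (V : Type) (G : SimpleGraph V) (S Q : Set V) (z v w : V) (s : Bool)
  (N : List V), RG G S Q z v s → IPt G (v :: N) → (∀ x ∈ N, x ∉ S) →
  (∀ x ∈ N, ∀ y ∈ S, y ≠ v → ¬ G.Adj x y) → (v :: N).getLast? = some w →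
  RG G (S ∪ LS N) Q z w s

/-- the part of a ring with the clique vertices `n 0, …, n j` and the links `P 0, …, P (j-1)` -/
def ST_RCH : Prop := ∀ (V : Type) (G : SimpleGraph V) (m : ℕ) (n : ℕ → V) (P : ℕ → List V),
  Ring G m n P → ∀ j, j < m →
    RG G {x | (∃ i, i ≤ j ∧ x = n i) ∨ ∃ i, i < j ∧ x ∈ P i} {x | ∃ i, i ≤ j ∧ x = n i} (n 0)
      (n j) (decide (Even j))

/-- rotation of a ring -/
def ST_RRO : Prop := ∀ (V : Type) (G : SimpleGraph V) (m : ℕ) (n : ℕ → V) (P : ℕ → List V)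
  (s : ℕ), Ring G m n P → Ring G m (fun i => n ((i + s) % m)) (fun i => P ((i + s) % m))

/-! ### E. Subdividing an edge -/

/-- the move: `arc p q` contains with one end of a chord also the other one -/
def ST_SB0 : Prop := ∀ (V : Type) (H G : SimpleGraph V) (S : Set V) (a b : V → ℤ) (u v x : V)
  (p p' q q' : ℤ), CM H S a b → Sub1 H G S u v x → u ≠ v →
  ((a u = p ∧ b u = p') ∨ (a u = p' ∧ b u = p)) →
  ((a v = q ∧ b v = q') ∨ (a v = q' ∧ b v = q)) → ¬ arc p q p' → ¬ arc p q q' →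
  (∀ y ∈ S, y ≠ u → y ≠ v → (arc p q (a y) ↔ arc p q (b y))) → CE G (insert x S)

/-- subdividing an edge whose ends have degree at most two and no common neighbour -/
def ST_SB1 : Prop := ∀ (V : Type) (H G : SimpleGraph V) (S : Set V) (u v x : V), CE H S →
  Sub1 H G S u v x → u ≠ v →
  (∀ y ∈ S, ∀ z ∈ S, y ≠ v → z ≠ v → H.Adj u y → H.Adj u z → y = z) →
  (∀ y ∈ S, ∀ z ∈ S, y ≠ u → z ≠ u → H.Adj v y → H.Adj v z → y = z) →
  (∀ y ∈ S, ¬ (H.Adj u y ∧ H.Adj v y)) → CE G (insert x S)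

/-- replacing an edge by a path -/
def ST_SBP : Prop := ∀ (V : Type) (H G : SimpleGraph V) (S : Set V) (u v : V) (P : List V),
  CE H S → u ∈ S → v ∈ S → u ≠ v → H.Adj u v → P ≠ [] → IPt G (u :: (P ++ [v])) →
  (∀ x ∈ P, x ∉ S ∧ ∀ y ∈ S, y ≠ u → y ≠ v → ¬ G.Adj x y) →
  (∀ y ∈ S, ∀ z ∈ S, ¬ (y = u ∧ z = v) → ¬ (y = v ∧ z = u) → (G.Adj y z ↔ H.Adj y z)) →
  (∀ y ∈ S, ∀ z ∈ S, y ≠ v → z ≠ v → H.Adj u y → H.Adj u z → y = z) →
  (∀ y ∈ S, ∀ z ∈ S, y ≠ u → z ≠ u → H.Adj v y → H.Adj v z → y = z) →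
  (∀ y ∈ S, ¬ (H.Adj u y ∧ H.Adj v y)) → CE G (S ∪ LS P)

/-! ### F. Naji systems -/

/-- the two forms, restriction -/
def ST_NNS : Prop := ∀ (V : Type) (G : SimpleGraph V) (S : Set V),
  (NAJ G S ↔ ∃ b, NS G S b) ∧ ∀ T : Set V, T ⊆ S → NAJ G S → NAJ G T

/-- circle graphs satisfy the Naji system -/
def ST_CNJ : Prop := ∀ (V : Type) (G : SimpleGraph V) (S : Set V), CS G S → NAJ G S

/-- minimally non-circle diamond-free graphs satisfy the hypothesis of the engine; a graph with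
a chord model for all vertices is a circle graph, its Naji system has a solution -/
def ST_MRD : Prop := (∀ (V : Type) (G : SimpleGraph V), MinNC G → Red G) ∧
  (∀ (V : Type) (G : SimpleGraph V) (S : Set V), Circ G → NAJ G S) ∧
  (∀ (V : Type) [Finite V] (G : SimpleGraph V) (S : Set V), (∀ x, x ∈ S) → CE G S → Circ G) ∧
  (∀ (V : Type) [Finite V] (G : SimpleGraph V), DF G → ¬ Circ G → (∀ z : V, CE G {v | v ≠ z}) →
    MinNC G)

/-- `b c` is constant on walks far from `c` -/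
def ST_NCH : Prop := ∀ (V : Type) (G : SimpleGraph V) (S : Set V) (b : V → V → Bool) (c : V)
  (N : List V), NS G S b → c ∈ S → Wk G N → (∀ x ∈ N, x ∈ S ∧ x ∈ Far G c) →
  ∀ x ∈ N, ∀ y ∈ N, b c x = b c y

/-- claw; claw with a triangle -/
def ST_CLA : Prop := ∀ (V : Type) (G : SimpleGraph V) (S : Set V) (b : V → V → Bool),
  NS G S b → (∀ n ∈ S, ∀ u ∈ S, ∀ v ∈ S, ∀ w ∈ S, G.Adj n u → G.Adj n v → G.Adj n w →
    u ≠ v → u ≠ w → v ≠ w → ¬ G.Adj u v → ¬ G.Adj u w → ¬ G.Adj v w →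
    b u v = b u w → b v u = b v w → b w u ≠ b w v) ∧
  ∀ n ∈ S, ∀ f ∈ S, ∀ y ∈ S, ∀ y' ∈ S, G.Adj n f → G.Adj n y → G.Adj n y' → f ≠ y → f ≠ y' →
    ¬ G.Adj f y → ¬ G.Adj f y' → G.Adj y y' → xor (b y f) (b n y) = xor (b y' f) (b n y')

/-- the value of `b h` changes at a neighbour of `h` on a path -/
def ST_CLW : Prop := ∀ (V : Type) (G : SimpleGraph V) (S : Set V) (b : V → V → Bool)
  (h r r' l ρ f : V) (A C : List V), NS G S b → IPt G (A ++ l :: ρ :: f :: C) → h ∈ S →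
  (∀ y ∈ A ++ l :: ρ :: f :: C, y ∈ S ∧ y ≠ h) → r ∈ A → G.Adj h r → r' ∈ C → G.Adj h r' →
  G.Adj h ρ → ¬ G.Adj h l → ¬ G.Adj h f → b h l ≠ b h f

/-- between the first and the last rung the value of `b h` changes at every rung -/
def ST_LNA : Prop := ∀ (V : Type) (G : SimpleGraph V) (S : Set V) (b : V → V → Bool)
  (h k r r' x l : V) (A X : List V), NS G S b → IPt G (A ++ x :: (X ++ [r'])) → h ∈ S →
  (∀ y ∈ A ++ x :: (X ++ [r']), y ∈ S ∧ y ≠ h) → r ∈ A → G.Adj h r → G.Adj h r' → ¬ G.Adj h x →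
  (∀ y ∈ x :: (X ++ [r']), ∀ z ∈ x :: (X ++ [r']), G.Adj y z → ¬ (G.Adj h y ∧ G.Adj h z)) →
  (∀ y ∈ x :: X, (G.Adj h y ↔ G.Adj k y)) → (x :: X).getLast? = some l →
  (b h x = b h l ↔ Even (rungs G h k X))

/-- the left end of a ladder -/
def ST_LNB : Prop := ∀ (V : Type) (G : SimpleGraph V) (S : Set V) (b : V → V → Bool)
  (h k p r f s : V) (A C : List V), NS G S b → h ≠ k → ¬ G.Adj h k → h ∈ S → k ∈ S →
  IPt G (p :: (A ++ r :: f :: C)) →
  (∀ y ∈ p :: (A ++ r :: f :: C), y ∈ S ∧ y ≠ h ∧ y ≠ k) →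
  G.Adj h p → ¬ G.Adj k p → G.Adj h r → G.Adj k r → ¬ G.Adj h f → ¬ G.Adj k f →
  (∀ x ∈ A, ¬ G.Adj h x ∧ ¬ G.Adj k x) → s ∈ C → G.Adj h s → G.Adj k s → ¬ G.Adj f s →
  b h k = b h f ∧ b k h ≠ b k f

/-- ladders with the wrong parity -/
def ST_LNJ : Prop := ∀ (V : Type) (G : SimpleGraph V) (h k : V) (M : List V) (a b : Bool),
  LadM G h k M a b → 2 ≤ rungs G h k M → (rungs G h k M = 2 → ¬ Gap1 G h k M) →
  (a = b ↔ Odd (rungs G h k M)) → ¬ NAJ G ({h, k} ∪ LS M)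

/-- the four certificates -/
def ST_W1C : Prop := ∀ ab dl : Bool, crt (w1s ab dl) 32 (w1m ab dl).1 (w1m ab dl).2 0 = true

/-- the configuration gives one of the four states -/
def ST_W1M : Prop := ∀ (V : Type) (G : SimpleGraph V) (h k : V) (D P : List V), DF G →
  W1c G h k D P → (∀ x ∈ P.head?, G.Adj h x) →
  ∃ (ab dl : Bool) (f : ℕ → V) (L : List (Seg × List V)), Mod G (w1s ab dl) f L ∧
    (∀ i, i < (w1s ab dl).n → f i ∈ ({h, k} ∪ LS D ∪ LS P : Set V)) ∧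
    ∀ p ∈ L, ∀ x ∈ p.2, x ∈ ({h, k} ∪ LS D ∪ LS P : Set V)

/-- two hubs, a connector and a path with pure ends and two rungs -/
def ST_W1 : Prop := ∀ (V : Type) (G : SimpleGraph V) (h k : V) (D P : List V), DF G →
  W1c G h k D P → ¬ NAJ G ({h, k} ∪ LS D ∪ LS P)

/-! ### G. Wheels -/

/-- rotation of the rim -/
def ST_WRO : Prop := ∀ (V : Type) (G : SimpleGraph V) (r : V),
  (∀ (c : V) (A B : List V), Rim G r (A ++ c :: B) → Rim G c (B ++ r :: A)) ∧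
  (∀ M : List V, Rim G r M → ∀ x y z : V, x ∈ r :: M → y ∈ r :: M → z ∈ r :: M →
    ¬ (G.Adj x y ∧ G.Adj y z ∧ G.Adj x z))

/-- paths far from `c` lie in one component -/
def ST_PCN : Prop := ∀ (V : Type) (G : SimpleGraph V) (c : V) (N : List V), Wk G N →
  (∀ x ∈ N, x ∈ Far G c) → ∀ x ∈ N, ∀ y ∈ N, Comp G c x y

def ST_WDF : Prop := ∀ (V : Type) (G : SimpleGraph V), WheelS G → DF G

def ST_WNC : Prop := ∀ (V : Type) (G : SimpleGraph V), WheelS G → ¬ Circ G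

def ST_WMN : Prop := ∀ (V : Type) (G : SimpleGraph V), WheelS G → ∀ z : V, CE G {v | v ≠ z}

/-- a chord model of the rim -/
def ST_WCY : Prop := ∀ (V : Type) (G : SimpleGraph V) (r : V) (M : List V), Rim G r M →
  ∃ a b : V → ℤ, CM G (LS (r :: M)) a b ∧
    ∀ (i : ℕ) (hi : i < (r :: M).length),
      a ((r :: M)[i]) = 4 * i + 2 ∧ (i + 1 < (r :: M).length → b ((r :: M)[i]) = 4 * i + 8) ∧
      (i + 1 = (r :: M).length → b ((r :: M)[i]) = 4)

/-- a hub with at most two runs of neighbours on the rim, the first vertex `r` being the start of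
a run -/
def ST_WSR : Prop := ∀ (V : Type) (G : SimpleGraph V) (h r l : V) (M : List V), DF G →
  Rim G r M → h ≠ r → h ∉ M → G.Adj h r → M.getLast? = some l → ¬ G.Adj h l →
  (¬ ∃ a ∈ r :: M, ∃ b ∈ r :: M, ∃ c ∈ r :: M, G.Adj h a ∧ G.Adj h b ∧ G.Adj h c ∧ a ≠ b ∧
    a ≠ c ∧ b ≠ c ∧ ¬ G.Adj a b ∧ ¬ G.Adj a c ∧ ¬ G.Adj b c) →
  CE G (insert h (LS (r :: M)))

/-- a hub with at most two runs of neighbours on the rim -/
def ST_WSM : Prop := ∀ (V : Type) (G : SimpleGraph V) (h r : V) (M : List V), DF G →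
  Rim G r M → h ≠ r → h ∉ M →
  (¬ ∃ a ∈ r :: M, ∃ b ∈ r :: M, ∃ c ∈ r :: M, G.Adj h a ∧ G.Adj h b ∧ G.Adj h c ∧ a ≠ b ∧
    a ≠ c ∧ b ≠ c ∧ ¬ G.Adj a b ∧ ¬ G.Adj a c ∧ ¬ G.Adj b c) →
  CE G (insert h (LS (r :: M)))

/-- rim of length three -/
def ST_W3 : Prop := ∀ (V : Type) (G : SimpleGraph V) (h a b c : V), DF G → G.Adj a b →
  G.Adj a c → G.Adj b c → h ≠ a → h ≠ b → h ≠ c → CE G {h, a, b, c}

def ST_WF3 : Prop := ∀ (V : Type) [Finite V] (G : SimpleGraph V), MinNC G → Wh G → WheelS G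

/-! ### H. Ladders -/

def ST_LDF : Prop := ∀ (V : Type) (G : SimpleGraph V), (LadS G ∨ LadC G) → DF G

def ST_LSN : Prop := ∀ (V : Type) (G : SimpleGraph V), LadS G → ¬ Circ G

def ST_LCN : Prop := ∀ (V : Type) (G : SimpleGraph V), LadC G → ¬ Circ G

def ST_LSM : Prop := ∀ (V : Type) (G : SimpleGraph V), LadS G → ∀ z : V, CE G {v | v ≠ z}

def ST_LCM : Prop := ∀ (V : Type) (G : SimpleGraph V), LadC G → ∀ z : V, CE G {v | v ≠ z}

/-- in a minimal ladder configuration the interior of the path is balanced -/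
def ST_LBL : Prop := ∀ (V : Type) (G : SimpleGraph V) (c h k : V) (M : List V), Red G → IPt G M →
  G.Adj c h → G.Adj c k → h ≠ k → ¬ G.Adj h k →
  (∀ x ∈ M, x ≠ c ∧ x ≠ h ∧ x ≠ k ∧ ¬ G.Adj c x) →
  (∀ x ∈ M.head?, Pure G h k x) → (∀ x ∈ M.getLast?, Pure G h k x) →
  (∃ r1 ∈ M, ∃ r2 ∈ M, ∃ r3 ∈ M, r1 ≠ r2 ∧ r1 ≠ r3 ∧ r2 ≠ r3 ∧ G.Adj h r1 ∧ G.Adj k r1 ∧
    G.Adj h r2 ∧ G.Adj k r2 ∧ G.Adj h r3 ∧ G.Adj k r3) →
  ∀ x ∈ M, M.head? ≠ some x → M.getLast? ≠ some x → ¬ Pure G h k x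

def ST_LF3 : Prop := ∀ (V : Type) (G : SimpleGraph V), Red G → Ld G → LadC G

/-! ### I. Rings -/

def ST_RDF : Prop := ∀ (V : Type) (G : SimpleGraph V), (RingE G ∨ RingO G) → DF G

/-- the two links at the clique vertex `n ((j + 1) % m)` lie on different sides of `y`, where `y` is
adjacent to all clique vertices (or one of them) -/
def ST_RK : Prop := ∀ (V : Type) (G : SimpleGraph V) (S : Set V) (b : V → V → Bool) (m : ℕ)
  (n : ℕ → V) (P : ℕ → List V) (y f l : V) (j : ℕ), Ring G m n P → NS G S b → j < m → y ∈ S →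
  (∀ i, i < m → n i ∈ S ∧ ∀ x ∈ P i, x ∈ S) →
  (∀ i, i < m → y = n i ∨ G.Adj y (n i)) → (∀ i, i < m → ∀ x ∈ P i, y ≠ x) →
  y ≠ n ((j + 1) % m) → (P ((j + 1) % m)).head? = some f → (P j).getLast? = some l →
  ¬ G.Adj y f → ¬ G.Adj y l → b y f ≠ b y l

/-- one step along the ring -/
def ST_RAL : Prop := ∀ (V : Type) (G : SimpleGraph V) (S : Set V) (b : V → V → Bool) (m : ℕ)
  (n : ℕ → V) (P : ℕ → List V) (y f g : V) (j : ℕ), Ring G m n P → NS G S b → j < m → y ∈ S →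
  (∀ i, i < m → n i ∈ S ∧ ∀ x ∈ P i, x ∈ S) →
  (∀ i, i < m → y = n i ∨ G.Adj y (n i)) → (∀ i, i < m → ∀ x ∈ P i, y ≠ x) →
  y ≠ n j → y ≠ n ((j + 1) % m) → (∀ i, i < m → y ≠ n i → ∀ x ∈ P i, G.Adj y x →
    y = n ((i + 1) % m)) → (P ((j + 1) % m)).head? = some g → (P j).head? = some f →
  b y f ≠ b y g

/-- the contradiction for an even number of links -/
def ST_REB : Prop := ∀ (m : ℕ) (x y : ℕ → ℕ → Bool), Even m → 4 ≤ m →
  (∀ i j, i < m → j < m → j ≠ i → (j + 1) % m ≠ i → x i j ≠ x i ((j + 1) % m)) →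
  (∀ i i' j, i < m → i' < m → j < m → i ≠ j → i' ≠ j → i ≠ i' →
    xor (x i j) (y j i) = xor (x i' j) (y j i')) →
  (∀ i j, i < m → j < m → i ≠ j → y i j ≠ y j i) → False

/-- no Naji system for a ring with an even number of links -/
def ST_REN : Prop := ∀ (V : Type) (G : SimpleGraph V) (S : Set V) (m : ℕ) (n : ℕ → V)
  (P : ℕ → List V), Ring G m n P → Even m → 4 ≤ m → (∀ i, i < m → n i ∈ S ∧ ∀ x ∈ P i, x ∈ S) →
  ¬ NAJ G S

/-- no Naji system for a ring with an odd number of links and a further vertex -/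
def ST_RON : Prop := ∀ (V : Type) (G : SimpleGraph V) (S : Set V) (m : ℕ) (n : ℕ → V)
  (P : ℕ → List V) (c : V), Ring G m n P → Odd m → (∀ i, i < m → n i ∈ S ∧ ∀ x ∈ P i, x ∈ S) →
  c ∈ S → (∀ i, i < m → c ∉ P i ∧ c ≠ n i) → (∀ i, i < m → G.Adj c (n i)) →
  (∀ i, i < m → ∀ x ∈ P i, ¬ G.Adj c x) → ¬ NAJ G S

/-- rings broken at a vertex of a link or of the clique, with or without the vertex `c` -/
def ST_RBR : Prop := ∀ (V : Type) (G : SimpleGraph V) (m : ℕ) (n : ℕ → V) (P : ℕ → List V)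
  (z : V) (C : Set V), Ring G m n P → (∀ c ∈ C, ∀ c' ∈ C, c = c') →
  (∀ c ∈ C, c ≠ z ∧ (∀ i, i < m → c ∉ P i ∧ c ≠ n i) ∧ ∀ x, G.Adj c x ↔ ∃ i, i < m ∧ x = n i) →
  ((∃ i, i < m ∧ z = n i) ∨ ∃ i, i < m ∧ z ∈ P i) →
  CE G {x | x ≠ z ∧ (x ∈ C ∨ (∃ i, i < m ∧ x = n i) ∨ ∃ i, i < m ∧ x ∈ P i)}

def ST_REM : Prop := ∀ (V : Type) (G : SimpleGraph V), RingE G → ∀ z : V, CE G {v | v ≠ z}

def ST_ROM : Prop := ∀ (V : Type) (G : SimpleGraph V), RingO G → ∀ z : V, CE G {v | v ≠ z}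

/-! ### J. The table -/

/-- a chord word gives a chord model -/
def ST_TW : Prop := ∀ (V : Type) (T : Ent) (f : ℕ → V) (i : ℕ) (w : List ℕ),
  (∀ j k, j < k → k < T.n → f j ≠ f k) → okw T i w = true →
  CE (TG T f) {x | ∃ j, j < T.n ∧ j ≠ i ∧ x = f j}

/-- what the Boolean checks mean -/
def ST_TOK : Prop := ∀ T : Ent,
  (∀ i j l, memp i j l = true ↔ ((i, j) ∈ l ∨ (j, i) ∈ l)) ∧
  (∀ W : List (List ℕ), okW T 0 W = true → ∀ i w, W[i]? = some w → okw T i w = true) ∧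
  (okp2 T.n T.rg = true → ∀ p ∈ T.rg, p.1 < T.n ∧ p.2 < T.n ∧ p.1 ≠ p.2) ∧
  (oke T T.el = true → (∀ e a b : ℕ, T.el[e]? = some (a, b) → a < T.n ∧ b < T.n ∧ a ≠ b ∧
    (∀ i j, i < T.n → j < T.n → i ≠ b → j ≠ b → adT T a i = true → adT T a j = true → i = j) ∧
    (∀ i j, i < T.n → j < T.n → i ≠ a → j ≠ a → adT T b i = true → adT T b j = true → i = j) ∧
    (∀ i, i < T.n → ¬ (adT T a i = true ∧ adT T b i = true)) ∧ memp a b T.rg = false) ∧
    ∀ e e' a b c d : ℕ, e < e' → T.el[e]? = some (a, b) → T.el[e']? = some (c, d) →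
      a ≠ c ∧ a ≠ d ∧ b ≠ c ∧ b ≠ d) ∧
  (okDf T T.n = true → ∀ i j k l, i < T.n → j < T.n → k < T.n → l < T.n → i ≠ j →
    adT T i j = true → adT T i k = true → adT T j k = true → adT T i l = true →
    adT T j l = true → k ≠ l → adT T k l = true)

/-- the bits of the state of an entry -/
def ST_TBN : Prop := ∀ T : Ent, T.n ≤ 32 → okp2 T.n T.rg = true → ∀ i j, i < 32 → j < 32 →
  (eb (sT T) i j = true → i < T.n ∧ j < T.n ∧ (i ≠ j → memp i j T.rg = true)) ∧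
  (db (sT T) i j = true → i < T.n ∧ j < T.n ∧ (i ≠ j → adT T i j = false))

/-- the entry is a configuration -/
def ST_TMD : Prop := ∀ (V : Type) (G : SimpleGraph V) (T : Ent) (f : ℕ → V) (P : ℕ → List V),
  RW G T f P → T.n ≤ 32 → okp2 T.n T.rg = true → oke T T.el = true →
  ∃ L : List (Seg × List V), Mod G (sT T) f L

def ST_TNC : Prop := ∀ (V : Type) (G : SimpleGraph V) (D : EntD), Real G D.T → okE D = true →
  ¬ Circ G

def ST_TDF : Prop := ∀ (V : Type) (G : SimpleGraph V) (D : EntD), Real G D.T → okE D = true →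
  DF G

/-- replacing the elastic edges one after the other: `I` is the set of the named vertices, `E` is
the set of the elastic edges in question -/
def ST_TKP : Prop := ∀ (V : Type) (G : SimpleGraph V) (T : Ent) (f : ℕ → V) (P : ℕ → List V)
  (I E : Set ℕ), RW G T f P → okp2 T.n T.rg = true → oke T T.el = true →
  (∀ e a b : ℕ, T.el[e]? = some (a, b) → e ∉ E → a ∉ I ∧ b ∉ I) →
  CE (TG T f) {x | ∃ j, j < T.n ∧ j ∈ I ∧ x = f j} →
  CE G ({x | ∃ j, j < T.n ∧ j ∈ I ∧ x = f j} ∪ {x | ∃ e, e < T.el.length ∧ e ∈ E ∧ x ∈ P e})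

def ST_TMN : Prop := ∀ (V : Type) (G : SimpleGraph V) (D : EntD), Real G D.T → okE D = true →
  ∀ z : V, CE G {v | v ≠ z}

/-! ### K. The result of this part -/

def ST_FAM : Prop := ∀ (V : Type) [Finite V] (G : SimpleGraph V) (DD : List EntD),
  okT DD = true → InF (DD.map EntD.T) G → DiaS G ∨ MinNC G

end Pool.Agent.Helper24.FF
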