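import Pool.Agent.Helper11.FF.TKP
import Pool.Agent.Helper14.FF.CLA
import Pool.Agent.Helper14.FF.CLW
import Pool.Agent.Helper14.FF.IPX
import Pool.Agent.Helper14.FF.LSM
import Pool.Agent.Helper14.FF.MRD
import Pool.Agent.Helper14.FF.NCH
import Pool.Agent.Helper14.FF.NNS
import Pool.Agent.Helper14.FF.PE1
import Pool.Agent.Helper14.FF.PEL
import Pool.Agent.Helper14.FF.RUB
import Pool.Agent.Helper14.FF.TNC
import Pool.Agent.Helper14.FF.TOK
import Pool.Agent.Helper14.FF.W1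
import Pool.Agent.Helper14.FF.W3
import Pool.Agent.Helper2.FF.WSR
import Pool.Agent.Helper24.FF.FAM
import Pool.Agent.Helper24.FF.INS
import Pool.Agent.Helper24.FF.LSN
import Pool.Agent.Helper24.FF.LSY
import Pool.Agent.Helper24.FF.MIR
import Pool.Agent.Helper24.FF.R1
import Pool.Agent.Helper24.FF.RAL
import Pool.Agent.Helper24.FF.W1C
import Pool.Agent.Helper3.FF.LNB
import Pool.Agent.Helper3.FF.WF3
import Pool.Agent.Helper3.FF.WMN
import Pool.Agent.Helper35.FF.RCH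
import Pool.Agent.Helper38.FF.LDF
import Pool.Agent.Helper38.FF.ROM
import Pool.Agent.Helper42.FF.CEC
import Pool.Agent.Helper42.FF.CMC
import Pool.Agent.Helper42.FF.CNJ
import Pool.Agent.Helper42.FF.H1
import Pool.Agent.Helper42.FF.SCL
import Pool.Agent.Helper42.FF.TBN
import Pool.Agent.Helper45.FF.RK
import Pool.Agent.Helper46.FF.SB0
import Pool.Agent.Helper46.FF.TW
import Pool.Agent.Helper46.FF.WCY
import Pool.Agent.Helper48.FF.LG1
import Pool.Agent.Helper51.FF.LBL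
import Pool.Agent.Helper51.FF.RP
import Pool.Agent.Helper54.FF.LB
import Pool.Agent.Helper54.FF.LBC
import Pool.Agent.Helper54.FF.LF3
import Pool.Agent.Helper54.FF.RDF
import Pool.Agent.Helper54.FF.TDF
import Pool.Agent.Helper57.FF.LNA
import Pool.Agent.Helper57.FF.LNJ
import Pool.Agent.Helper61.FF.LG
import Pool.Agent.Helper7.FF.PCN
import Pool.Agent.Helper7.FF.RRO
import Pool.Agent.Helper7.FF.SBP
import Pool.Agent.Helper71.FF.RBR
import Pool.Agent.Helper71.FF.WNC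
import Pool.Agent.Helper72.FF.WSM
import Pool.Agent.Helper78.FF.RUN
import Pool.Agent.Helper79.FF.LCM
import Pool.Agent.Helper79.FF.TMN
import Pool.Agent.Helper80.FF.M0
import Pool.Agent.Helper80.FF.M1
import Pool.Agent.Helper80.FF.M2
import Pool.Agent.Helper80.FF.M3
import Pool.Agent.Helper80.FF.M4
import Pool.Agent.Helper80.FF.M5
import Pool.Agent.Helper80.FF.M6
import Pool.Agent.Helper80.FF.M7
import Pool.Agent.Helper80.FF.PH
import Pool.Agent.Helper80.FF.WDF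
import Pool.Agent.Helper83.FF.W1M
import Pool.Agent.Helper85.FF.SB1
import Pool.Agent.Helper90.FL.TBS
import Pool.Agent.Helper92.FF.WRO
import Pool.Agent.Helper97.FF.TMD
import Pool.Agent.Helper97.FL.RGE

/-! Full list for MP_866009_co, part F: all modules put together. -/

set_option autoImplicit false

namespace Pool.Agent.Helper24.FF

theorem a_CEC : ST_CEC := st_CEC

theorem a_CLA : ST_CLA := st_CLA

theorem a_NCH : ST_NCH := st_NCH

theorem a_IPX : ST_IPX := st_IPX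

theorem a_CLW : ST_CLW := st_CLW a_CLA a_NCH a_IPX

theorem a_CMC : ST_CMC := st_CMC

theorem a_CNJ : ST_CNJ := st_CNJ

theorem a_MRD : ST_MRD := st_MRD a_CNJ a_CMC

theorem a_LDF : ST_LDF := st_LDF a_IPX

theorem a_RUB : ST_RUB := st_RUB

theorem a_LNA : ST_LNA := st_LNA a_CLW a_RUB

theorem a_LNB : ST_LNB := st_LNB a_CLA a_NCH a_IPX

theorem a_LSY : ST_LSY := st_LSY

theorem a_LNJ : ST_LNJ := st_LNJ a_LNA a_LNB a_LSY a_RUB

theorem a_LSN : ST_LSN := st_LSN a_LNJ a_MRD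

theorem a_W1C : ST_W1C := st_W1C

theorem a_W1M : ST_W1M := st_W1M a_IPX

theorem a_W1 : ST_W1 := st_W1 a_W1C a_W1M

theorem a_LCN : ST_LCN := st_LCN a_W1 a_MRD a_LDF

theorem a_M0 : ST_M0 := st_M0

theorem a_INS : ST_INS := st_INS

theorem a_M1 : ST_M1 := st_M1 a_INS

theorem a_MIR : ST_MIR := st_MIR

theorem a_M2 : ST_M2 := st_M2 a_INS a_MIR

theorem a_RUN : ST_RUN := st_RUN a_M1 a_M2 a_RUB

theorem a_M3 : ST_M3 := st_M3 a_INS

theorem a_SCL : ST_SCL := st_SCL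

theorem a_M4 : ST_M4 := st_M4 a_INS a_SCL

theorem a_M5 : ST_M5 := st_M5 a_INS

theorem a_M6 : ST_M6 := st_M6 a_INS

theorem a_M7 : ST_M7 := st_M7 a_MIR

theorem a_RP : ST_RP := st_RP a_RUN a_M3 a_M4 a_M5 a_M6 a_M7

theorem a_LB : ST_LB := st_LB a_M0 a_RUN a_RP a_M7 a_LSY

theorem a_H1 : ST_H1 := st_H1 a_INS a_MIR

theorem a_PH : ST_PH := st_PH a_H1

theorem a_LSM : ST_LSM := st_LSM a_LB a_PH a_CEC

theorem a_LG : ST_LG := st_LG a_M0 a_RUN a_M3 a_LSY a_RUB a_IPX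

theorem a_LG1 : ST_LG1 := st_LG1 a_M0 a_RUN a_RP a_M7 a_M5 a_LSY a_RUB a_IPX

theorem a_LBC : ST_LBC := st_LBC a_M0 a_RUN a_RP a_M7 a_M5 a_LSY

theorem a_PE1 : ST_PE1 := st_PE1 a_INS a_SCL

theorem a_LCM : ST_LCM := st_LCM a_LG a_LG1 a_LBC a_PH a_PE1 a_CEC

theorem a_WRO : ST_WRO := st_WRO

theorem a_WDF : ST_WDF := st_WDF a_WRO

theorem a_PCN : ST_PCN := st_PCN

theorem a_WNC : ST_WNC := st_WNC a_WRO a_PCN a_IPX

theorem a_WCY : ST_WCY := st_WCY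

theorem a_WMN : ST_WMN := st_WMN a_WCY a_WRO a_PH a_CEC

theorem a_RDF : ST_RDF := st_RDF

theorem a_RK : ST_RK := st_RK a_CLA a_NCH a_IPX

theorem a_RAL : ST_RAL := st_RAL a_RK a_NCH a_IPX

theorem a_REN : ST_REN := st_REN a_RAL a_CLA

theorem a_NNS : ST_NNS := st_NNS

theorem a_RON : ST_RON := st_RON a_RAL a_NNS

theorem a_R0 : ST_R0 := st_R0

theorem a_R2 : ST_R2 := st_R2 a_INS

theorem a_R1 : ST_R1 := st_R1 a_INS

theorem a_RLK : ST_RLK := st_RLK a_R1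

theorem a_RCH : ST_RCH := st_RCH a_R0 a_R2 a_RLK a_IPX

theorem a_RRO : ST_RRO := st_RRO

theorem a_R3 : ST_R3 := st_R3 a_INS

theorem a_PEL : ST_PEL := st_PEL a_PE1

theorem a_RBR : ST_RBR := st_RBR a_RCH a_RRO a_R3 a_PEL a_CEC

theorem a_REM : ST_REM := st_REM a_RBR

theorem a_ROM : ST_ROM := st_ROM a_RBR a_RCH a_RLK a_R3 a_CEC

theorem a_TOK : ST_TOK := st_TOK

theorem a_TBN : ST_TBN := st_TBN

theorem a_TMD : ST_TMD := st_TMD Pool.Agent.Helper64.FL.st_TBS a_TOK a_TBN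

theorem a_TNC : ST_TNC := st_TNC a_TMD a_MRD

theorem a_TDF : ST_TDF := st_TDF a_TOK

theorem a_SB0 : ST_SB0 := st_SB0

theorem a_SB1 : ST_SB1 := st_SB1 a_SB0

theorem a_SBP : ST_SBP := st_SBP a_SB1 a_IPX

theorem a_TKP : ST_TKP := st_TKP a_TOK a_SBP a_PEL a_CEC a_IPX

theorem a_TW : ST_TW := st_TW

theorem a_TMN : ST_TMN := st_TMN a_TKP a_TW a_TOK a_PEL a_CEC

theorem a_FAM : ST_FAM := st_FAM a_MRD a_LDF a_LSN a_LCN a_LSM a_LCM a_WDF a_WNC a_WMN a_RDF a_REN a_RON a_REM a_ROM a_TNC a_TDF a_TMN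

theorem a_LBL : ST_LBL := st_LBL a_W1 a_NNS a_IPX

theorem a_LF3 : ST_LF3 := st_LF3 a_LBL a_LNJ a_NNS

theorem a_REB : ST_REB := st_REB

theorem a_W3 : ST_W3 := st_W3 a_PE1 a_CEC

theorem a_WSR : ST_WSR := st_WSR a_WCY a_INS

theorem a_WSM : ST_WSM := st_WSM a_WSR a_WCY a_WRO a_PE1

theorem a_WF3 : ST_WF3 := st_WF3 a_WSM a_W3 a_WRO a_MRD

end Pool.Agent.Helper24.FF
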