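import Pool.Agent.Helper64.FL.Fam

/-! Full list for MP_866009_co, part F (families and minimality): definitions. -/

set_option autoImplicit false

namespace Pool.Agent.Helper24.FF

open Pool.Agent.Helper64.CT Pool.Agent.Helper64.DT Pool.Agent.Helper64.FL
open Pool.Agent.Helper64.HG (Ovl Model Circ IC HellyCircle ChordModel)

variable {V : Type}

/-! ### Chord models with integer positions -/

/-- the subgraph induced by `S` is a circle graph -/
def CS (G : SimpleGraph V) (S : Set V) : Prop := Circ (G.induce S)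

/-- `r` lies strictly between `p` and `q` -/
def bt (p q r : ℤ) : Prop := (p < r ∧ r < q) ∨ (q < r ∧ r < p)

/-- chord model of the subgraph induced by `S`: the chord of `v` has the ends `a v` and `b v`,
which are even numbers -/
structure CM (G : SimpleGraph V) (S : Set V) (a b : V → ℤ) : Prop where
  pa : ∀ v ∈ S, a v % 2 = 0
  pb : ∀ v ∈ S, b v % 2 = 0
  ne : ∀ v ∈ S, a v ≠ b v
  ds : ∀ u ∈ S, ∀ v ∈ S, u ≠ v → a u ≠ a v ∧ a u ≠ b v ∧ b u ≠ a v ∧ b u ≠ b v
  ad : ∀ u ∈ S, ∀ v ∈ S, u ≠ v →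
    (G.Adj u v ↔ ¬ (bt (a u) (b u) (a v) ↔ bt (a u) (b u) (b v)))

/-- there is a chord model on `S` -/
def CE (G : SimpleGraph V) (S : Set V) : Prop := ∃ a b : V → ℤ, CM G S a b

/-- odd numbers: the gaps -/
def Od (s : ℤ) : Prop := s % 2 = 1

/-- the gaps `s` and `t` are separated exactly by the chords of the vertices with `P` -/
def SE (S : Set V) (a b : V → ℤ) (s t : ℤ) (P : V → Prop) : Prop :=
  ∀ y ∈ S, (¬ (bt (a y) (b y) s ↔ bt (a y) (b y) t)) ↔ P y

open Classical in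
/-- positions after the insertion of `x` at `s` -/
noncomputable def up (a : V → ℤ) (x : V) (s : ℤ) : V → ℤ := fun v => if v = x then 2 * s else 2 * a v

/-! ### Frontiers -/

/-- one hub: there are gaps `g0 < g1 < g2`, between them exactly one end of `v` and one end of
`h` -/
def F1 (G : SimpleGraph V) (S : Set V) (h v : V) : Prop := h ∈ S ∧ v ∈ S ∧ v ≠ h ∧
  ∃ (a b : V → ℤ) (g0 g1 g2 : ℤ), CM G S a b ∧ Od g0 ∧ Od g1 ∧ Od g2 ∧ g0 < g1 ∧ g1 < g2 ∧
    SE S a b g0 g1 (fun y => y = v) ∧ SE S a b g1 g2 (fun y => y = h)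

/-- two hubs: gaps `g1 < g2 < g3`, between them exactly one end of `h` and one end of `k` -/
def E2 (G : SimpleGraph V) (S : Set V) (h k : V) : Prop := h ∈ S ∧ k ∈ S ∧ h ≠ k ∧
  ∃ (a b : V → ℤ) (g1 g2 g3 : ℤ), CM G S a b ∧ Od g1 ∧ Od g2 ∧ Od g3 ∧ g1 < g2 ∧ g2 < g3 ∧
    SE S a b g1 g2 (fun y => y = h) ∧ SE S a b g2 g3 (fun y => y = k)

/-- two hubs and an end of `v` next to `h` -/
def F2 (G : SimpleGraph V) (S : Set V) (h k v : V) : Prop := h ∈ S ∧ k ∈ S ∧ v ∈ S ∧ h ≠ k ∧
  v ≠ h ∧ v ≠ k ∧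
  ∃ (a b : V → ℤ) (g0 g1 g2 g3 : ℤ), CM G S a b ∧ Od g0 ∧ Od g1 ∧ Od g2 ∧ Od g3 ∧ g0 < g1 ∧
    g1 < g2 ∧ g2 < g3 ∧ SE S a b g0 g1 (fun y => y = v) ∧ SE S a b g1 g2 (fun y => y = h) ∧
    SE S a b g2 g3 (fun y => y = k)

/-- rings: `Q` is the set of the clique vertices so far, `z0` the first one, `v` the vertex where
the construction goes on -/
def RG (G : SimpleGraph V) (S Q : Set V) (z0 v : V) (side : Bool) : Prop := Q ⊆ S ∧ z0 ∈ Q ∧
  v ∈ S ∧ ∃ (a b : V → ℤ) (g0 g1 g2 z : ℤ), CM G S a b ∧ Od g0 ∧ Od g1 ∧ Od g2 ∧ Od z ∧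
    g0 < g1 ∧ SE S a b g0 g1 (fun y => y = v) ∧ SE S a b g1 g2 (fun y => y ∈ Q) ∧
    (side = true → g1 < z ∧ z < g2 ∧ SE S a b g1 z (fun y => y = z0)) ∧
    (side = false → g2 < z ∧ z < g0 ∧ SE S a b g2 z (fun y => y = z0))

/-! ### Subdividing an edge -/

/-- `G` is obtained from `H` on `S ∪ {x}` by subdividing the edge `u v` with the vertex `x` -/
structure Sub1 (H G : SimpleGraph V) (S : Set V) (u v x : V) : Prop where
  uS : u ∈ S
  vS : v ∈ S
  xS : x ∉ S
  uv : H.Adj u v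
  same : ∀ y ∈ S, ∀ z ∈ S, ¬ (y = u ∧ z = v) → ¬ (y = v ∧ z = u) → (G.Adj y z ↔ H.Adj y z)
  nuv : ¬ G.Adj u v
  nx : ∀ y ∈ S, (G.Adj x y ↔ (y = u ∨ y = v))

/-- the arc from `p` to `q` (in positive direction on the circle) -/
def arc (p q r : ℤ) : Prop := (p < q ∧ p < r ∧ r < q) ∨ (q < p ∧ (r < q ∨ p < r))

/-! ### Lists -/

/-- the vertices of a list -/
def LS (M : List V) : Set V := {x | x ∈ M}

/-- consecutive vertices of the list are adjacent -/
def Wk (G : SimpleGraph V) : List V → Prop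
  | [] => True
  | a :: l => (∀ b ∈ l.head?, G.Adj a b) ∧ Wk G l

/-- `r :: M` is an induced cycle of length at least four -/
structure Rim (G : SimpleGraph V) (r : V) (M : List V) : Prop where
  ip : IPt G M
  len : 3 ≤ M.length
  rM : r ∉ M
  adj : ∀ x ∈ M, (G.Adj r x ↔ (M.head? = some x ∨ M.getLast? = some x))

/-! ### Naji systems -/

/-- `b` is a solution of the Naji system on `S` -/
structure NS (G : SimpleGraph V) (S : Set V) (b : V → V → Bool) : Prop where
  n1 : ∀ x ∈ S, ∀ y ∈ S, G.Adj x y → b x y ≠ b y x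
  n2 : ∀ c ∈ S, ∀ x ∈ S, ∀ y ∈ S, x ∈ Far G c → y ∈ Far G c → G.Adj x y → b c x = b c y
  n3 : ∀ n ∈ S, ∀ v ∈ S, ∀ w ∈ S, G.Adj n v → G.Adj n w → v ≠ w → ¬ G.Adj v w →
    xor (xor (b v w) (b w v)) (xor (b n v) (b n w)) = true

/-- two hubs joined by a connector and a path with pure ends and two rungs -/
structure W1c (G : SimpleGraph V) (h k : V) (D P : List V) : Prop where
  hk : h ≠ k
  nhk : ¬ G.Adj h k
  D0 : D ≠ []
  iD : IPt G D
  iP : IPt G P
  hD : h ∉ D
  kD : k ∉ D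
  hP : h ∉ P
  kP : k ∉ P
  aD : ∀ x ∈ D, (G.Adj h x ↔ D.head? = some x)
  bD : ∀ x ∈ D, (G.Adj k x ↔ D.getLast? = some x)
  DP : ∀ x ∈ D, ∀ y ∈ P, x ≠ y ∧ ¬ G.Adj x y
  fst : ∀ x ∈ P.head?, Pure G h k x
  lst : ∀ x ∈ P.getLast?, Pure G h k x
  rng : ∃ r1 ∈ P, ∃ r2 ∈ P, r1 ≠ r2 ∧ G.Adj h r1 ∧ G.Adj k r1 ∧ G.Adj h r2 ∧ G.Adj k r2

/-- the four states; `ab`: the last vertex of `P` is adjacent to `k`; `dl`: the connector has at
least two vertices -/
def w1s (ab dl : Bool) : Sk :=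
  match ab, dl with
  | false, false => ⟨7, 0x1000000030000000300000001000000030000000000000000,
      0x1e0000001c0000000400000006000000000000000100000000, [⟨3, 4, 100⟩, ⟨4, 5, 76⟩, ⟨5, 6, 28⟩]⟩
  | false, true => ⟨8, 0x100000003000000030000000100000002000000010000000000000000,
      0x3e0000003c0000000c0000000e00000001000000020000000100000000,
      [⟨2, 3, 243⟩, ⟨4, 5, 204⟩, ⟨5, 6, 156⟩, ⟨6, 7, 60⟩]⟩
  | true, false => ⟨7, 0x2000000030000000300000001000000030000000000000000,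
      0x1d0000001c0000000400000006000000000000000100000000, [⟨3, 4, 100⟩, ⟨4, 5, 76⟩, ⟨5, 6, 28⟩]⟩
  | true, true => ⟨8, 0x200000003000000030000000100000002000000010000000000000000,
      0x3d0000003c0000000c0000000e00000001000000020000000100000000,
      [⟨2, 3, 243⟩, ⟨4, 5, 204⟩, ⟨5, 6, 156⟩, ⟨6, 7, 60⟩]⟩

/-- the certificates for the four states -/
def w1m (ab dl : Bool) : ℕ × ℕ :=
  match ab, dl with
  | false, false => (12, 0x204c882648316208d284698a3ca416419b314598608c2043102)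
  | false, true => (15, 0xc274a13a508930448c244c122521f39898c47ca416730b18899c808e2044102)
  | true, false => (16, 0x200c88064c526419720c588234a11a520b314598818a40c5182308314418a2043102)
  | true, true =>
    (20, 0x100e94074a436311730489cc5c6122600d28069cc3c6226311f29059ca18c504620238c314618a2044102)

/-! ### Intermediate graphs for the table -/

/-- `G` is obtained from the entry `T` by replacing the elastic edge number `e` by a path with the
interior `P e`; `f` gives the named vertices -/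
structure RW (G : SimpleGraph V) (T : Ent) (f : ℕ → V) (P : ℕ → List V) : Prop where
  nm : ∀ i j, i < j → j < T.n → f i ≠ f j ∧ (memp i j T.el = false →
    (G.Adj (f i) (f j) ↔ memp i j T.rg = true))
  pth : ∀ e a b, T.el[e]? = some (a, b) → a < T.n ∧ b < T.n ∧ a ≠ b ∧
    IPt G (f a :: (P e ++ [f b])) ∧
    ∀ x ∈ P e, ∀ m, m < T.n → x ≠ f m ∧ (m ≠ a → m ≠ b → ¬ G.Adj x (f m))
  sep : ∀ e e', e < e' → e' < T.el.length → ∀ x ∈ P e, ∀ y ∈ P e', x ≠ y ∧ ¬ G.Adj x y
  cov : ∀ x, (∃ i, i < T.n ∧ x = f i) ∨ ∃ e, e < T.el.length ∧ x ∈ P e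

theorem real_iff {G : SimpleGraph V} {T : Ent} : Real G T ↔ ∃ f P, RW G T f P :=
  ⟨fun ⟨f, P, h1, h2, h3, h4⟩ => ⟨f, P, h1, h2, h3, h4⟩,
    fun ⟨f, P, h⟩ => ⟨f, P, h.nm, h.pth, h.sep, h.cov⟩⟩

/-- edges between named vertices of the entry -/
def TG (T : Ent) (f : ℕ → V) : SimpleGraph V where
  Adj x y := x ≠ y ∧ ∃ i j, i < T.n ∧ j < T.n ∧ x = f i ∧ y = f j ∧
    (memp i j T.rg = true ∨ memp i j T.el = true)
  symm := by
    constructor
    rintro x y ⟨h, i, j, hi, hj, e1, e2, h1⟩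
    refine ⟨h.symm, j, i, hj, hi, e2, e1, ?_⟩
    have key : ∀ l : List (ℕ × ℕ), memp j i l = memp i j l := by
      intro l
      induction l with
      | nil => rfl
      | cons p l ih =>
        obtain ⟨a, b⟩ := p
        simp only [memp, ih]
        rw [Bool.or_comm (Nat.beq a j && Nat.beq b i)]
    rw [key, key]
    exact h1
  loopless := ⟨fun x h => h.1 rfl⟩

/-- `G` with the edges `f a, f b` for the elastic edges `(a, b)` number `k` and later -/
def HG (G : SimpleGraph V) (T : Ent) (f : ℕ → V) (k : ℕ) : SimpleGraph V where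
  Adj x y := G.Adj x y ∨ (x ≠ y ∧ ∃ e a b, k ≤ e ∧ T.el[e]? = some (a, b) ∧
    ((x = f a ∧ y = f b) ∨ (x = f b ∧ y = f a)))
  symm := by
    constructor
    rintro x y (h | ⟨h, e, a, b, he, h1, h2⟩)
    · exact Or.inl h.symm
    · exact Or.inr ⟨h.symm, e, a, b, he, h1, h2.symm.imp (fun h => ⟨h.2, h.1⟩)
        (fun h => ⟨h.2, h.1⟩)⟩
  loopless := ⟨fun x h => h.elim (fun h => G.loopless.irrefl x h) (fun h => h.1 rfl)⟩

/-! ### The table -/

/-- adjacency in the entry `T` -/
def adT (T : Ent) (i j : ℕ) : Bool := memp i j T.rg || memp i j T.el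

/-- the first position of `j` in `w` -/
def fp (j : ℕ) : List ℕ → ℕ
  | [] => 0
  | x :: l => bif Nat.beq x j then 0 else Nat.succ (fp j l)

/-- the last position of `j` in `w` -/
def lp (j : ℕ) : List ℕ → ℕ
  | [] => 0
  | _ :: l => bif memb j l then Nat.succ (lp j l) else 0
where
  /-- membership -/
  memb (j : ℕ) : List ℕ → Bool
  | [] => false
  | x :: l => Nat.beq x j || memb j l

/-- the chords `(f, l)` and `(f', l')` of positions cross -/
def crs (f l f' l' : ℕ) : Bool :=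
  (Nat.blt f f' && Nat.blt f' l && Nat.blt l l') || (Nat.blt f' f && Nat.blt f l' && Nat.blt l' l)

/-- the chords of `j` and of all `k < m`, `k ≠ i`, are as they should be -/
def okc (T : Ent) (i : ℕ) (w : List ℕ) (j : ℕ) : ℕ → Bool
  | 0 => true
  | k + 1 => (Nat.beq k i || (crs (fp j w) (lp j w) (fp k w) (lp k w) == adT T j k)) &&
      okc T i w j k

/-- the occurrences of `j < m`, `j ≠ i` -/
def oko (T : Ent) (i : ℕ) (w : List ℕ) : ℕ → Bool
  | 0 => true
  | j + 1 => (Nat.beq j i || (Nat.blt (fp j w) (lp j w) && Nat.blt (lp j w) w.length &&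
      okc T i w j j)) && oko T i w j

/-- `w` is a chord word of `T - i` -/
def okw (T : Ent) (i : ℕ) (w : List ℕ) : Bool := oko T i w T.n

/-- all words -/
def okW (T : Ent) : ℕ → List (List ℕ) → Bool
  | _, [] => true
  | i, w :: W => okw T i w && okW T (i + 1) W

/-- `j` is the only neighbour of `i` different from `b` among `0, …, m-1` -/
def onl (T : Ent) (i b j : ℕ) : ℕ → Bool
  | 0 => true
  | k + 1 => (Nat.beq k b || Nat.beq k j || !(adT T i k)) && onl T i b j k

/-- some `j < m`: all neighbours of `i` except `b` are equal to `j` -/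
def deg2 (T : Ent) (i b : ℕ) : ℕ → Bool
  | 0 => false
  | j + 1 => onl T i b j T.n || deg2 T i b j

/-- no common neighbour `< m` of `i` and `j` -/
def ncm (T : Ent) (i j : ℕ) : ℕ → Bool
  | 0 => true
  | k + 1 => !(adT T i k && adT T j k) && ncm T i j k

/-- conditions on the elastic edges -/
def oke (T : Ent) : List (ℕ × ℕ) → Bool
  | [] => true
  | (a, b) :: l => Nat.blt a T.n && Nat.blt b T.n && !(Nat.beq a b) && deg2 T a b T.n &&
      deg2 T b a T.n && ncm T a b T.n && !(memp a b T.rg) && dsj a b l && oke T l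
where
  /-- `a` and `b` are not in the pairs of the list -/
  dsj (a b : ℕ) : List (ℕ × ℕ) → Bool
  | [] => true
  | (c, d) :: l => !(Nat.beq a c) && !(Nat.beq a d) && !(Nat.beq b c) && !(Nat.beq b d) && dsj a b l

/-- no diamond with the vertices `i`, `j` of the central edge, and `k < m`, `l < m` -/
def ndi (T : Ent) (i j : ℕ) : ℕ → Bool
  | 0 => true
  | k + 1 => (!(adT T i k && adT T j k) || ndk T i j k k) && ndi T i j k
where
  /-- every common neighbour `l < m` of `i` and `j` is adjacent to `k` -/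
  ndk (T : Ent) (i j k : ℕ) : ℕ → Bool
  | 0 => true
  | l + 1 => (!(adT T i l && adT T j l) || adT T k l) && ndk T i j k l

def ndj (T : Ent) (i : ℕ) : ℕ → Bool
  | 0 => true
  | j + 1 => (!(adT T i j) || ndi T i j T.n) && ndj T i j

/-- diamond-free -/
def okDf (T : Ent) : ℕ → Bool
  | 0 => true
  | i + 1 => ndj T i i && okDf T i

/-- all pairs in the list are ordered pairs of numbers `< n` -/
def okp2 (n : ℕ) : List (ℕ × ℕ) → Bool
  | [] => true
  | (a, b) :: l => Nat.blt a n && Nat.blt b n && !(Nat.beq a b) && okp2 n l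

/-- bits of the pairs in a list -/
def bp : List (ℕ × ℕ) → ℕ
  | [] => 0
  | (a, b) :: l => sb (bp l) (px a b)

/-- bits of the nonadjacent pairs `(i, j)` with `i < m` -/
def bnj (T : Ent) (j : ℕ) : ℕ → ℕ
  | 0 => 0
  | i + 1 => bif adT T i j then bnj T j i else sb (bnj T j i) (px i j)

def bn (T : Ent) : ℕ → ℕ
  | 0 => 0
  | j + 1 => Nat.lor (bnj T j j) (bn T j)

/-- the segments -/
def sgT (n : ℕ) : List (ℕ × ℕ) → List Seg
  | [] => []
  | (a, b) :: l => ⟨a, b, clr (clr (Nat.pred (Nat.shiftLeft 1 n)) a) b⟩ :: sgT n l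

/-- the state of the entry `T` -/
def sT (T : Ent) : Sk := ⟨T.n, bp T.rg, bn T T.n, sgT T.n T.el⟩

/-- an entry with the data: chord words of the subgraphs `T - i`, certificate `(c, m)` for `T` -/
structure EntD where
  T : Ent
  W : List (List ℕ)
  c : ℕ
  m : ℕ

/-- all checks for an entry -/
def okE (D : EntD) : Bool := Nat.ble D.T.n 32 && Nat.beq D.W.length D.T.n && okp2 D.T.n D.T.rg &&
  okW D.T 0 D.W && oke D.T D.T.el && okDf D.T D.T.n && crt (sT D.T) 32 D.c D.m 0

/-- all checks for the table -/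
def okT : List EntD → Bool
  | [] => true
  | D :: l => okE D && okT l

end Pool.Agent.Helper24.FF
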