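import Pool.Agent.Helper24.FF.Defs

set_option autoImplicit false

namespace Pool.Agent.Helper24.FF

open Pool.Agent.Helper64.FL

theorem okT_append : ∀ a b : List EntD, okT a = true → okT b = true → okT (a ++ b) = true
  | [], _, _, hb => hb
  | D :: a, b, ha, hb => by
    simp only [okT, Bool.and_eq_true, List.cons_append] at ha ⊢
    exact ⟨ha.1, okT_append a b ha.2 hb⟩

end Pool.Agent.Helper24.FF
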