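import Pool.Agent.Helper24.FF.T.D0
import Pool.Agent.Helper24.FF.T.D1
import Pool.Agent.Helper24.FF.T.D2
import Pool.Agent.Helper24.FF.T.D3
import Pool.Agent.Helper24.FF.T.D4
import Pool.Agent.Helper24.FF.T.D5
import Pool.Agent.Helper24.FF.T.D6
import Pool.Agent.Helper24.FF.T.D7
import Pool.Agent.Helper24.FF.T.D8
import Pool.Agent.Helper24.FF.T.D9
import Pool.Agent.Helper64.FL.Table

set_option autoImplicit false
set_option maxRecDepth 100000

/-! The certificates for all entries of the table. -/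

namespace Pool.Agent.Helper24.FF

open Pool.Agent.Helper64.FL

/-- the table with certificates -/
def DD : List EntD := dd0 ++ (dd1 ++ (dd2 ++ (dd3 ++ (dd4 ++ (dd5 ++ (dd6 ++ (dd7 ++ (dd8 ++ (dd9)))))))))

theorem okT_DD : okT DD = true :=
  okT_append _ _ okT_dd0 (
  okT_append _ _ okT_dd1 (
  okT_append _ _ okT_dd2 (
  okT_append _ _ okT_dd3 (
  okT_append _ _ okT_dd4 (
  okT_append _ _ okT_dd5 (
  okT_append _ _ okT_dd6 (
  okT_append _ _ okT_dd7 (
  okT_append _ _ okT_dd8 (
  okT_dd9)))))))))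

theorem DD_table : DD.map EntD.T = table := by
  rfl

end Pool.Agent.Helper24.FF
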