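import Pool.Agent.Helper24.FF.All
import Pool.Agent.Helper24.FF.TabD

set_option autoImplicit false

namespace Pool.Agent.Helper24.FF

open Pool.Agent.Helper64.CT Pool.Agent.Helper64.DT Pool.Agent.Helper64.FL
open Pool.Agent.Helper64.HG (Ovl Model Circ IC HellyCircle ChordModel)

/-- all graphs in the list are diamonds or minimal non-circle graphs -/
theorem fam_table (V : Type) [Finite V] (G : SimpleGraph V) (h : InF table G) :
    DiaS G ∨ MinNC G :=
  a_FAM V G DD okT_DD (by rw [DD_table]; exact h)

end Pool.Agent.Helper24.FF
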